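import Mathlib

namespace Pool.Agent.Results.MP_76b19e_co.ForcedCliques

open Finset

section core

variable {V : Type*} [DecidableEq V] (G : SimpleGraph V) [DecidableRel G.Adj]

/-- number of vertices of `W` not adjacent to `v` -/
def nn (W : Finset V) (v : V) : ℕ := (W.filter (fun w => ¬ G.Adj v w)).card

/-- common neighbourhood of `S` inside `W` -/
def cnb (W S : Finset V) : Finset V := W.filter (fun w => ∀ s ∈ S, G.Adj s w)

/-- vertices of `W` that miss some vertex of `S` -/
def miss (W S : Finset V) : Finset V := W.filter (fun w => ∃ s ∈ S, ¬ G.Adj s w)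

/-- `j`-cliques inside `W` -/
def cl (W : Finset V) (j : ℕ) : Finset (Finset V) := W.powerset.filter (fun K => G.IsNClique j K)

lemma mem_cl {W : Finset V} {j : ℕ} {K : Finset V} :
    K ∈ cl G W j ↔ K ⊆ W ∧ G.IsNClique j K := by
  simp [cl]

lemma mem_cnb {W S : Finset V} {w : V} : w ∈ cnb G W S ↔ w ∈ W ∧ ∀ s ∈ S, G.Adj s w := by
  simp [cnb]

lemma mem_miss {W S : Finset V} {w : V} : w ∈ miss G W S ↔ w ∈ W ∧ ∃ s ∈ S, ¬ G.Adj s w := by
  simp [miss]

lemma card_cnb_add_miss (W S : Finset V) : (cnb G W S).card + (miss G W S).card = W.card := by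
  unfold cnb miss
  rw [← Finset.card_filter_add_card_filter_not (s := W) (fun w => ∀ s ∈ S, G.Adj s w)]
  congr 2
  ext w
  simp

/-- extending by one vertex -/
lemma card_nb (W : Finset V) (v : V) :
    (W.filter (fun w => G.Adj v w)).card + nn G W v = W.card := by
  unfold nn
  exact Finset.card_filter_add_card_filter_not (s := W) (fun w => G.Adj v w)

lemma nn_mono {W W' : Finset V} (h : W' ⊆ W) (v : V) : nn G W' v ≤ nn G W v :=
  Finset.card_le_card (Finset.filter_subset_filter _ h)

lemma cl_one (W : Finset V) : (cl G W 1).card = W.card := by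
  classical
  have : cl G W 1 = W.image (fun v => ({v} : Finset V)) := by
    ext K
    rw [mem_cl]
    simp only [SimpleGraph.isNClique_one, Finset.mem_image]
    constructor
    · rintro ⟨h, a, rfl⟩
      exact ⟨a, by simpa using h, rfl⟩
    · rintro ⟨a, ha, rfl⟩
      exact ⟨by simpa using ha, a, rfl⟩
  rw [this, Finset.card_image_of_injective _ (Finset.singleton_injective)]

/-- cliques in the common neighbourhood of a clique extend -/
lemma union_clique {W S K : Finset V} {i j : ℕ} (hS : G.IsNClique i S)
    (hK : K ∈ cl G (cnb G W S) j) : Disjoint S K ∧ G.IsNClique (i + j) (S ∪ K) := by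
  rw [mem_cl] at hK
  obtain ⟨hKs, hKc⟩ := hK
  have hd : Disjoint S K := by
    rw [Finset.disjoint_left]
    intro a ha hb
    have := (mem_cnb G).1 (hKs hb)
    exact G.loopless.irrefl a (this.2 a ha)
  refine ⟨hd, ?_, ?_⟩
  · intro a ha b hb hab
    simp only [Finset.coe_union, Set.mem_union, Finset.mem_coe] at ha hb
    rcases ha with ha | ha <;> rcases hb with hb | hb
    · exact hS.1 ha hb hab
    · exact ((mem_cnb G).1 (hKs hb)).2 a ha
    · exact (((mem_cnb G).1 (hKs ha)).2 b hb).symm
    · exact hKc.1 ha hb hab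
  · rw [Finset.card_union_of_disjoint hd, hS.2, hKc.2]

/-- the number of `(i+j)`-cliques in `W` containing the `i`-clique `S` with trace conditions -/
lemma card_super {W S : Finset V} {i j : ℕ} (hSW : S ⊆ W) (hS : G.IsNClique i S)
    (P : Finset V → Prop) [DecidablePred P]
    (hP : ∀ K ∈ cl G (cnb G W S) j, P (S ∪ K)) :
    (cl G (cnb G W S) j).card ≤ ((cl G W (i + j)).filter (fun K => S ⊆ K ∧ P K)).card := by
  classical
  apply Finset.card_le_card_of_injOn (fun K => S ∪ K)
  · intro K hK
    have h1 := union_clique G hS hK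
    simp only [Finset.coe_filter, Set.mem_ofPred_eq]
    refine ⟨(mem_cl G).2 ⟨?_, h1.2⟩, Finset.subset_union_left, hP K hK⟩
    have := ((mem_cl G).1 hK).1
    exact Finset.union_subset hSW (this.trans (Finset.filter_subset _ _))
  · intro K hK K' hK' h
    have h1 := (union_clique G hS hK).1
    have h2 := (union_clique G hS hK').1
    simp only at h
    have e1 : (S ∪ K) \ S = K := by
      rw [Finset.union_sdiff_left]
      exact Finset.sdiff_eq_self_of_disjoint h1.symm
    have e2 : (S ∪ K') \ S = K' := by
      rw [Finset.union_sdiff_left]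
      exact Finset.sdiff_eq_self_of_disjoint h2.symm
    rw [← e1, ← e2, h]

/-- Greedy extension lemma. -/
lemma greedy (l : ℕ) : ∀ (W : Finset V) (X : ℕ → Finset V) (q : ℕ → ℕ) (sl : ℕ),
    (∀ j < l, ∀ v ∈ X j, v ∈ W → nn G W v ≤ q j) →
    (∀ j < l, (∑ i ∈ range j, q i) + 1 ≤ (X j ∩ W).card) →
    (∑ i ∈ range l, q i) + 1 + sl ≤ W.card →
    1 + sl ≤ (cl G W (l + 1)).card := by
  induction l with
  | zero =>
    intro W X q sl _ _ h
    rw [zero_add, cl_one]
    simpa using h
  | succ l ih =>
    intro W X q sl hc hX hW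
    have h0 := hX 0 (by omega)
    simp only [Finset.range_zero, Finset.sum_empty, zero_add] at h0
    obtain ⟨v, hv⟩ := Finset.card_pos.1 (by omega : 0 < (X 0 ∩ W).card)
    rw [Finset.mem_inter] at hv
    have hcv := hc 0 (by omega) v hv.1 hv.2
    have key := ih (cnb G W {v}) (fun j => X (j + 1)) (fun j => q (j + 1)) sl ?_ ?_ ?_
    · have hS : G.IsNClique 1 ({v} : Finset V) := by simp
      have := card_super G (W := W) (S := {v}) (i := 1) (j := l + 1) (by simpa using hv.2) hS
        (fun _ => True) (fun _ _ => trivial)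
      calc 1 + sl ≤ _ := key
        _ ≤ _ := this
        _ ≤ (cl G W (l + 1 + 1)).card := by
          rw [add_comm 1 (l + 1)]
          exact Finset.card_le_card (Finset.filter_subset _ _)
    · intro j hj w hw hwW
      have hwW' : w ∈ W := ((mem_cnb G).1 hwW).1
      exact (nn_mono G (Finset.filter_subset _ _) w).trans (hc (j + 1) (by omega) w hw hwW')
    · intro j hj
      have h1 := hX (j + 1) (by omega)
      rw [Finset.sum_range_succ'] at h1
      have h2 : (X (j + 1) ∩ W).card ≤ (X (j + 1) ∩ cnb G W {v}).card + nn G W v := by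
        have : X (j + 1) ∩ W ⊆ (X (j + 1) ∩ cnb G W {v}) ∪ W.filter (fun w => ¬ G.Adj v w) := by
          intro w hw
          rw [Finset.mem_inter] at hw
          by_cases ha : G.Adj v w
          · apply Finset.mem_union_left
            rw [Finset.mem_inter, mem_cnb]
            exact ⟨hw.1, hw.2, by simpa using ha⟩
          · apply Finset.mem_union_right
            rw [Finset.mem_filter]
            exact ⟨hw.2, ha⟩
        exact (Finset.card_le_card this).trans (Finset.card_union_le _ _)
      omega
    · rw [Finset.sum_range_succ'] at hW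
      have h1 := card_nb G W v
      have h2 : cnb G W {v} = W.filter (fun w => G.Adj v w) := by
        ext w; simp [cnb]
      rw [h2]
      omega

/-- Ordered counting lemma. -/
lemma ordered (l : ℕ) : ∀ (W : Finset V) (X : ℕ → Finset V) (q b : ℕ → ℕ),
    (∀ j < l, ∀ v ∈ X j, v ∈ W → nn G W v ≤ q j) →
    (∀ j < l, (∑ i ∈ range j, q i) + b j ≤ (X j ∩ W).card) →
    (∑ i ∈ range l, q i) + 1 ≤ W.card →
    ∏ i ∈ range l, b i ≤ (l + 1).factorial * (cl G W (l + 1)).card := by
  induction l with
  | zero =>
    intro W X q b _ _ h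
    rw [zero_add, cl_one]
    simp at h ⊢
    omega
  | succ l ih =>
    intro W X q b hc hX hW
    have hsum : ∀ v ∈ X 0 ∩ W, ∏ i ∈ range l, b (i + 1) ≤
        (l + 1).factorial * ((cl G W (l + 2)).filter (fun K => v ∈ K)).card := by
      intro v hv
      rw [Finset.mem_inter] at hv
      have hcv := hc 0 (by omega) v hv.1 hv.2
      have key := ih (cnb G W {v}) (fun j => X (j + 1)) (fun j => q (j + 1)) (fun j => b (j + 1))
        ?_ ?_ ?_
      · have hS : G.IsNClique 1 ({v} : Finset V) := by simp
        have := card_super G (W := W) (S := {v}) (i := 1) (j := l + 1) (by simpa using hv.2) hS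
          (fun _ => True) (fun _ _ => trivial)
        refine key.trans (Nat.mul_le_mul_left _ (this.trans ?_))
        rw [show 1 + (l + 1) = l + 2 by ring]
        apply Finset.card_le_card
        intro K hK
        rw [Finset.mem_filter] at hK ⊢
        exact ⟨hK.1, by simpa using hK.2.1⟩
      · intro j hj w hw hwW
        have hwW' : w ∈ W := ((mem_cnb G).1 hwW).1
        exact (nn_mono G (Finset.filter_subset _ _) w).trans (hc (j + 1) (by omega) w hw hwW')
      · intro j hj
        have h1 := hX (j + 1) (by omega)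
        rw [Finset.sum_range_succ'] at h1
        have h2 : (X (j + 1) ∩ W).card ≤ (X (j + 1) ∩ cnb G W {v}).card + nn G W v := by
          have : X (j + 1) ∩ W ⊆ (X (j + 1) ∩ cnb G W {v}) ∪ W.filter (fun w => ¬ G.Adj v w) := by
            intro w hw
            rw [Finset.mem_inter] at hw
            by_cases ha : G.Adj v w
            · apply Finset.mem_union_left
              rw [Finset.mem_inter, mem_cnb]
              exact ⟨hw.1, hw.2, by simpa using ha⟩
            · apply Finset.mem_union_right
              rw [Finset.mem_filter]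
              exact ⟨hw.2, ha⟩
          exact (Finset.card_le_card this).trans (Finset.card_union_le _ _)
        omega
      · rw [Finset.sum_range_succ'] at hW
        have h1 := card_nb G W v
        have h2 : cnb G W {v} = W.filter (fun w => G.Adj v w) := by
          ext w; simp [cnb]
        rw [h2]
        omega
    have h0 := hX 0 (by omega)
    simp only [Finset.range_zero, Finset.sum_empty, zero_add] at h0
    have hdc : ∑ v ∈ X 0 ∩ W, ((cl G W (l + 2)).filter (fun K => v ∈ K)).card
        ≤ (l + 2) * (cl G W (l + 2)).card := by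
      have e1 : ∑ v ∈ X 0 ∩ W, ((cl G W (l + 2)).filter (fun K => v ∈ K)).card
          = ∑ K ∈ cl G W (l + 2), ((X 0 ∩ W).filter (fun v => v ∈ K)).card := by
        simp only [Finset.card_filter]
        rw [Finset.sum_comm]
      rw [e1]
      calc _ ≤ ∑ K ∈ cl G W (l + 2), (l + 2) := by
            apply Finset.sum_le_sum
            intro K hK
            have := ((mem_cl G).1 hK).2.2
            rw [← this]
            apply Finset.card_le_card
            intro v hv
            exact (Finset.mem_filter.1 hv).2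
        _ = _ := by rw [Finset.sum_const, smul_eq_mul, mul_comm]
    have h3 : (X 0 ∩ W).card * ∏ i ∈ range l, b (i + 1) ≤
        (l + 1).factorial * ∑ v ∈ X 0 ∩ W, ((cl G W (l + 2)).filter (fun K => v ∈ K)).card := by
      rw [Finset.mul_sum, ← smul_eq_mul, ← Finset.sum_const]
      exact Finset.sum_le_sum hsum
    rw [Finset.prod_range_succ']
    calc (∏ i ∈ range l, b (i + 1)) * b 0 ≤ (X 0 ∩ W).card * ∏ i ∈ range l, b (i + 1) := by
          rw [mul_comm]
          exact Nat.mul_le_mul_right _ h0
      _ ≤ _ := h3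
      _ ≤ (l + 1).factorial * ((l + 2) * (cl G W (l + 2)).card) := Nat.mul_le_mul_left _ hdc
      _ = (l + 1 + 1).factorial * (cl G W (l + 1 + 1)).card := by
          rw [Nat.factorial_succ (l + 1)]
          ring

end core

section tri

variable {V : Type*} [DecidableEq V] (G : SimpleGraph V) [DecidableRel G.Adj]

lemma tri (q : ℕ) : ∀ (W X : Finset V), X ⊆ W → q + 1 ≤ X.card → 2 * q + 1 ≤ W.card →
    (∀ x ∈ X, nn G W x ≤ q) → q ≤ (cl G W 3).card := by
  induction q with
  | zero => intro W X _ _ _ _; omega
  | succ q ih =>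
    intro W X0 hXW0 hX0 hW hc0
    obtain ⟨X, hXX, hX⟩ := Finset.exists_subset_card_eq hX0
    have hXW : X ⊆ W := hXX.trans hXW0
    have hc : ∀ x ∈ X, nn G W x ≤ q + 1 := fun x hx => hc0 x (hXX hx)
    by_cases hcase : ∀ y ∈ W \ X, ∃ x ∈ X, ∃ x' ∈ X, G.Adj x x' ∧ G.Adj x y ∧ G.Adj x' y
    · choose! f hf g hg h1 h2 h3 using hcase
      have hcard : (W \ X).card ≤ (cl G W 3).card := by
        apply Finset.card_le_card_of_injOn (fun y => {f y, g y, y})
        · intro y hy
          have hy' : y ∈ W \ X := hy
          simp only [Finset.mem_coe]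
          rw [mem_cl]
          constructor
          · intro z hz
            simp only [Finset.mem_insert, Finset.mem_singleton] at hz
            rcases hz with rfl | rfl | rfl
            · exact hXW (hf y hy')
            · exact hXW (hg y hy')
            · exact (Finset.mem_sdiff.1 hy').1
          · rw [SimpleGraph.is3Clique_triple_iff]
            exact ⟨h1 y hy', h2 y hy', h3 y hy'⟩
        · intro y hy y' hy' h
          have hy1 : y ∈ W \ X := hy
          have hy2 : y' ∈ W \ X := hy'
          simp only at h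
          have : y ∈ ({f y', g y', y'} : Finset V) := by
            rw [← h]; simp
          simp only [Finset.mem_insert, Finset.mem_singleton] at this
          rcases this with h' | h' | h'
          · exact absurd (h' ▸ hf y' hy2) (Finset.mem_sdiff.1 hy1).2
          · exact absurd (h' ▸ hg y' hy2) (Finset.mem_sdiff.1 hy1).2
          · exact h'
      have := Finset.card_sdiff_of_subset hXW
      omega
    · push Not at hcase
      obtain ⟨y, hy, hyX⟩ := hcase
      rw [Finset.mem_sdiff] at hy
      -- choose x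
      have hx : ∃ x ∈ X, ∀ x' ∈ X, G.Adj x x' → ¬ G.Adj x' y := by
        by_cases hne : ∃ x ∈ X, G.Adj x y
        · obtain ⟨x, hx, hxy⟩ := hne
          exact ⟨x, hx, fun x' hx' ha => hyX x hx x' hx' ha hxy⟩
        · push Not at hne
          obtain ⟨x, hx⟩ := Finset.card_pos.1 (by omega : 0 < X.card)
          exact ⟨x, hx, fun x' hx' _ => hne x' hx'⟩
      obtain ⟨x, hx, hxX⟩ := hx
      have hxy : x ≠ y := fun h => hy.2 (h ▸ hx)
      set W' := (W.erase x).erase y with hW'
      have hW'c : W'.card + 2 = W.card := by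
        rw [hW', Finset.card_erase_of_mem (Finset.mem_erase.2 ⟨hxy.symm, hy.1⟩),
          Finset.card_erase_of_mem (hXW hx)]
        omega
      have hih := ih W' (X.erase x) ?_ ?_ ?_ ?_
      · -- a triangle through x
        have h1 : 0 < ((X.filter (fun w => G.Adj x w))).card := by
          have e := card_nb G X x
          have e2 := nn_mono G hXW x
          have e3 := hc x hx
          omega
        obtain ⟨x', hx'⟩ := Finset.card_pos.1 h1
        rw [Finset.mem_filter] at hx'
        have h2 : 0 < (cnb G W {x, x'}).card := by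
          have e := card_cnb_add_miss G W {x, x'}
          have e2 : (miss G W {x, x'}).card ≤ nn G W x + nn G W x' := by
            have : miss G W {x, x'} ⊆ (W.filter (fun w => ¬ G.Adj x w)) ∪
                (W.filter (fun w => ¬ G.Adj x' w)) := by
              intro w hw
              rw [mem_miss] at hw
              simp only [Finset.mem_insert, Finset.mem_singleton, exists_eq_or_imp,
                exists_eq_left] at hw
              rw [Finset.mem_union, Finset.mem_filter, Finset.mem_filter]
              tauto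
            exact (Finset.card_le_card this).trans (Finset.card_union_le _ _)
          have e3 := hc x hx
          have e4 := hc x' hx'.1
          omega
        obtain ⟨z, hz⟩ := Finset.card_pos.1 h2
        rw [mem_cnb] at hz
        simp only [Finset.mem_insert, Finset.mem_singleton, forall_eq_or_imp, forall_eq] at hz
        have hnew : ({x, x', z} : Finset V) ∈ (cl G W 3) \ (cl G W' 3) := by
          rw [Finset.mem_sdiff, mem_cl, mem_cl]
          constructor
          · constructor
            · intro w hw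
              simp only [Finset.mem_insert, Finset.mem_singleton] at hw
              rcases hw with rfl | rfl | rfl
              · exact hXW hx
              · exact hXW hx'.1
              · exact hz.1
            · rw [SimpleGraph.is3Clique_triple_iff]
              exact ⟨hx'.2, hz.2.1, hz.2.2⟩
          · rintro ⟨h, _⟩
            have : x ∈ W' := h (by simp)
            simp [hW'] at this
        have hsub : cl G W' 3 ⊆ cl G W 3 := by
          intro K hK
          rw [mem_cl] at hK ⊢
          exact ⟨hK.1.trans ((Finset.erase_subset _ _).trans (Finset.erase_subset _ _)), hK.2⟩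
        have h5 := Finset.card_sdiff_add_card_eq_card hsub
        have h6 := Finset.card_pos.2 ⟨_, hnew⟩
        omega
      · intro w hw
        rw [Finset.mem_erase] at hw
        rw [hW', Finset.mem_erase, Finset.mem_erase]
        exact ⟨fun h => hy.2 (h ▸ hw.2), hw.1, hXW hw.2⟩
      · rw [Finset.card_erase_of_mem hx]; omega
      · omega
      · intro w hw
        rw [Finset.mem_erase] at hw
        have e := hc w hw.2
        -- some removed vertex is a non-neighbour
        have : ∃ z ∈ W, z ∉ W' ∧ ¬ G.Adj w z := by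
          by_cases ha : G.Adj x w
          · exact ⟨y, hy.1, by simp [hW'], hxX w hw.2 ha⟩
          · exact ⟨x, hXW hx, by simp [hW'], fun h => ha h.symm⟩
        obtain ⟨z, hzW, hzW', hz⟩ := this
        have : nn G W' w < nn G W w := by
          apply Finset.card_lt_card
          rw [Finset.ssubset_iff_of_subset]
          · exact ⟨z, by simp [hzW, hz], by simp [hzW']⟩
          · apply Finset.filter_subset_filter
            exact (Finset.erase_subset _ _).trans (Finset.erase_subset _ _)
        omega

end tri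

section tail

variable {V : Type*} [DecidableEq V] (G : SimpleGraph V) [DecidableRel G.Adj]

lemma card_miss_le (W S : Finset V) : (miss G W S).card ≤ ∑ s ∈ S, nn G W s := by
  have : miss G W S ⊆ S.biUnion (fun s => W.filter (fun w => ¬ G.Adj s w)) := by
    intro w hw
    rw [mem_miss] at hw
    obtain ⟨hw, s, hs, h⟩ := hw
    rw [Finset.mem_biUnion]
    exact ⟨s, hs, by simp [hw, h]⟩
  exact (Finset.card_le_card this).trans Finset.card_biUnion_le

lemma sum_nn_eq (X S : Finset V) :
    ∑ s ∈ S, nn G X s = ∑ z ∈ X, (S.filter (fun s => ¬ G.Adj s z)).card := by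
  unfold nn
  simp only [Finset.card_filter]
  rw [Finset.sum_comm]

/-- if some vertex of `X` is missed by all of `S` and `2 ≤ |S|` there is an extra unit -/
lemma card_miss_succ_le (X S : Finset V) (x : V) (hx : x ∈ X) (hS : 2 ≤ S.card)
    (h : ∀ s ∈ S, ¬ G.Adj s x) : (miss G X S).card + 1 ≤ ∑ s ∈ S, nn G X s := by
  rw [sum_nn_eq]
  have hxm : x ∈ miss G X S := by
    rw [mem_miss]
    obtain ⟨s, hs⟩ := Finset.card_pos.1 (by omega : 0 < S.card)
    exact ⟨hx, s, hs, h s hs⟩
  have h1 : ∑ z ∈ miss G X S, (S.filter (fun s => ¬ G.Adj s z)).card ≤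
      ∑ z ∈ X, (S.filter (fun s => ¬ G.Adj s z)).card :=
    Finset.sum_le_sum_of_subset (Finset.filter_subset _ _)
  refine le_trans ?_ h1
  rw [← Finset.add_sum_erase _ _ hxm]
  have h2 : ((miss G X S).erase x).card ≤
      ∑ z ∈ (miss G X S).erase x, (S.filter (fun s => ¬ G.Adj s z)).card := by
    rw [Finset.card_eq_sum_ones]
    apply Finset.sum_le_sum
    intro z hz
    have hz := Finset.mem_of_mem_erase hz
    rw [mem_miss] at hz
    obtain ⟨_, s, hs, hsz⟩ := hz
    exact Finset.card_pos.2 ⟨s, by simp [hs, hsz]⟩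
  have h3 : S.filter (fun s => ¬ G.Adj s x) = S := by
    apply Finset.filter_true_of_mem
    exact h
  rw [h3]
  rw [Finset.card_erase_of_mem hxm] at h2
  have h4 := Finset.card_pos.2 ⟨x, hxm⟩
  omega

lemma nn_split {W X : Finset V} (h : X ⊆ W) (v : V) :
    nn G X v + nn G (W \ X) v = nn G W v := by
  unfold nn
  rw [← Finset.card_union_of_disjoint]
  · congr 1
    rw [← Finset.filter_union, Finset.union_sdiff_of_subset h]
  · exact Finset.disjoint_filter_filter (Finset.disjoint_sdiff)

lemma miss_split {W X S : Finset V} :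
    (miss G W S).card ≤ (miss G X S).card + (miss G (W \ X) S).card := by
  have : miss G W S ⊆ miss G X S ∪ miss G (W \ X) S := by
    intro w hw
    rw [mem_miss] at hw
    rw [Finset.mem_union, mem_miss, mem_miss, Finset.mem_sdiff]
    by_cases hx : w ∈ X
    · exact Or.inl ⟨hx, hw.2⟩
    · exact Or.inr ⟨⟨hw.1, hx⟩, hw.2⟩
  exact (Finset.card_le_card this).trans (Finset.card_union_le _ _)

/-- hypotheses for the tail lemma -/
structure TailHyp (W X : Finset V) (q l : ℕ) (Y : ℕ → Finset V) (τ : ℕ → ℕ) : Prop where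
  hXW : X ⊆ W
  hX : X.card = q + 1
  hc : ∀ x ∈ X, nn G W x ≤ q
  hτ : ∀ j < l, q + 1 ≤ τ j
  hY : ∀ j < l, ∀ v ∈ Y j, v ∈ W → nn G W v ≤ τ j
  hYc : ∀ j < l, 2 * q + (∑ i ∈ range j, τ i) + 1 ≤ (Y j ∩ W).card
  hW : 2 * q + (∑ i ∈ range l, τ i) + 1 ≤ W.card

variable {G}

lemma TailHyp.super {W X : Finset V} {q l : ℕ} {Y : ℕ → Finset V} {τ : ℕ → ℕ}
    (H : TailHyp G W X q l Y τ) {S : Finset V} {κ e : ℕ} (hκ : κ ≤ l) (hSX : S ⊆ X)
    (hS : G.IsNClique (κ + 2) S) (he : (miss G X S).card + e ≤ ∑ s ∈ S, nn G X s) :
    κ + 1 + e ≤ (cl G (cnb G W S) (l - κ + 1)).card := by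
  have hm : (miss G W S).card + e ≤ (κ + 2) * q := by
    have h1 := miss_split G (W := W) (X := X) (S := S)
    have h2 := card_miss_le G (W \ X) S
    have h3 : ∑ s ∈ S, nn G X s + ∑ s ∈ S, nn G (W \ X) s = ∑ s ∈ S, nn G W s := by
      rw [← Finset.sum_add_distrib]
      exact Finset.sum_congr rfl (fun s _ => nn_split G H.hXW s)
    have h4 : ∑ s ∈ S, nn G W s ≤ (κ + 2) * q := by
      rw [← hS.2, ← smul_eq_mul, ← Finset.sum_const]
      exact Finset.sum_le_sum (fun s hs => H.hc s (hSX hs))
    omega
  have hsumκ : ∀ k ≤ l, k * (q + 1) ≤ ∑ i ∈ range k, τ i := by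
    intro k hk
    calc k * (q + 1) = ∑ i ∈ range k, (q + 1) := by simp
      _ ≤ _ := Finset.sum_le_sum (fun i hi => H.hτ i (by
          have := Finset.mem_range.1 hi; omega))
  have hsplit : ∀ j, ∑ i ∈ range (κ + j), τ i = ∑ i ∈ range κ, τ i + ∑ i ∈ range j, τ (κ + i) := by
    intro j
    rw [Finset.sum_range_add]
  have h2κ : (κ + 2) * q = κ * q + 2 * q := by ring
  have h3κ : κ * (q + 1) = κ * q + κ := by ring
  have key := greedy G (l - κ) (cnb G W S) (fun j => Y (κ + j)) (fun j => τ (κ + j)) (κ + e)
    ?_ ?_ ?_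
  · omega
  · intro j hj v hv hvW
    exact (nn_mono G (Finset.filter_subset _ _) v).trans
      (H.hY (κ + j) (by omega) v hv ((mem_cnb G).1 hvW).1)
  · intro j hj
    have h1 := H.hYc (κ + j) (by omega)
    rw [hsplit j] at h1
    have h2 : (Y (κ + j) ∩ W).card ≤ (Y (κ + j) ∩ cnb G W S).card + (miss G W S).card := by
      have : Y (κ + j) ∩ W ⊆ (Y (κ + j) ∩ cnb G W S) ∪ miss G W S := by
        intro w hw
        rw [Finset.mem_inter] at hw
        rw [Finset.mem_union, Finset.mem_inter, mem_cnb, mem_miss]
        by_cases h : ∀ s ∈ S, G.Adj s w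
        · left; exact ⟨hw.1, hw.2, h⟩
        · right; push Not at h; exact ⟨hw.2, h⟩
      exact (Finset.card_le_card this).trans (Finset.card_union_le _ _)
    have h3 := hsumκ κ hκ
    omega
  · have h1 := H.hW
    have h2 := hsplit (l - κ)
    rw [Nat.add_sub_cancel' hκ] at h2
    have h3 := hsumκ κ hκ
    have h4 := card_cnb_add_miss G W S
    omega

/-- maximal cliques of `G[X]` -/
def IsMaxClq (G : SimpleGraph V) (X S : Finset V) : Prop :=
  S ⊆ X ∧ G.IsClique S ∧ ∀ z ∈ X, ¬ (∀ s ∈ S, G.Adj s z)

lemma exists_maxClq {X A : Finset V} (hA : A ⊆ X) (hAc : G.IsClique A) :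
    ∃ S, IsMaxClq G X S ∧ A ⊆ S := by
  classical
  let F := X.powerset.filter (fun S => A ⊆ S ∧ G.IsClique (S : Set V))
  have hF : F.Nonempty := ⟨A, by simp [F, hA, hAc]⟩
  obtain ⟨S, hS, hmax⟩ := Finset.exists_max_image F Finset.card hF
  simp only [F, Finset.mem_filter, Finset.mem_powerset] at hS
  refine ⟨S, ⟨hS.1, hS.2.2, ?_⟩, hS.2.1⟩
  intro z hz hall
  have hzS : z ∉ S := fun h => G.loopless.irrefl z (hall z h)
  have : insert z S ∈ F := by
    simp only [F, Finset.mem_filter, Finset.mem_powerset]
    refine ⟨Finset.insert_subset hz hS.1, hS.2.1.trans (Finset.subset_insert _ _), ?_⟩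
    rw [Finset.coe_insert, SimpleGraph.isClique_insert]
    exact ⟨hS.2.2, fun b hb _ => (hall b hb).symm⟩
  have := hmax _ this
  rw [Finset.card_insert_of_notMem hzS] at this
  omega

lemma TailHyp.two_le {W X : Finset V} {q l : ℕ} {Y : ℕ → Finset V} {τ : ℕ → ℕ}
    (H : TailHyp G W X q l Y τ) {S : Finset V} (hS : IsMaxClq G X S) : 2 ≤ S.card := by
  by_contra hlt
  have hX := H.hX
  rcases Nat.lt_or_ge S.card 1 with h | h
  · have : S = ∅ := Finset.card_eq_zero.1 (by omega)
    obtain ⟨x, hx⟩ := Finset.card_pos.1 (by omega : 0 < X.card)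
    exact hS.2.2 x hx (by simp [this])
  · obtain ⟨s, rfl⟩ := Finset.card_eq_one.1 (by omega : S.card = 1)
    have hs : s ∈ X := hS.1 (by simp)
    have h1 := H.hc s hs
    have h2 := nn_mono G H.hXW s
    have h3 := card_nb G X s
    obtain ⟨z, hz⟩ := Finset.card_pos.1 (by omega : 0 < (X.filter (fun w => G.Adj s w)).card)
    rw [Finset.mem_filter] at hz
    exact hS.2.2 z hz.1 (by simpa using hz.2)

lemma TailHyp.trace {W X : Finset V} {q l : ℕ} {Y : ℕ → Finset V} {τ : ℕ → ℕ}
    (H : TailHyp G W X q l Y τ) {S : Finset V} {κ e : ℕ} (hκ : κ ≤ l) (hS : IsMaxClq G X S)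
    (hSc : S.card = κ + 2) (he : (miss G X S).card + e ≤ ∑ s ∈ S, nn G X s) :
    κ + 1 + e ≤ ((cl G W (l + 3)).filter (fun K => K ∩ X = S)).card := by
  have hSn : G.IsNClique (κ + 2) S := ⟨hS.2.1, hSc⟩
  refine (H.super hκ hS.1 hSn he).trans ?_
  have := card_super G (W := W) (S := S) (i := κ + 2) (j := l - κ + 1) (hS.1.trans H.hXW) hSn
    (fun K => K ∩ X = S) ?_
  · refine this.trans ?_
    rw [show κ + 2 + (l - κ + 1) = l + 3 by omega]
    apply Finset.card_le_card
    intro K hK
    rw [Finset.mem_filter] at hK ⊢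
    exact ⟨hK.1, hK.2.2⟩
  · intro K hK
    have h1 := ((mem_cl G).1 hK).1
    ext z
    rw [Finset.mem_inter, Finset.mem_union]
    constructor
    · rintro ⟨h | h, hz⟩
      · exact h
      · exact absurd ((mem_cnb G).1 (h1 h)).2 (hS.2.2 z hz)
    · intro h
      exact ⟨Or.inl h, hS.1 h⟩

lemma TailHyp.superK {W X : Finset V} {q l : ℕ} {Y : ℕ → Finset V} {τ : ℕ → ℕ}
    (H : TailHyp G W X q l Y τ) {R : Finset V} (hRX : R ⊆ X) (hR : G.IsNClique (l + 2) R) :
    l + 1 ≤ ((cl G W (l + 3)).filter (fun K => R ⊆ K)).card := by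
  have h1 := H.super (S := R) (κ := l) (e := 0) le_rfl hRX hR (by
    rw [add_zero]; exact card_miss_le G X R)
  have := card_super G (W := W) (S := R) (i := l + 2) (j := l - l + 1) (hRX.trans H.hXW) hR
    (fun _ => True) (fun _ _ => trivial)
  refine h1.trans (this.trans ?_)
  rw [show l + 2 + (l - l + 1) = l + 3 by omega]
  apply Finset.card_le_card
  intro K hK
  rw [Finset.mem_filter] at hK ⊢
  exact ⟨hK.1, hK.2.1⟩

/-- many `(l+3)`-cliques around an `(l+3)`-clique inside `X` -/
lemma TailHyp.around {W X : Finset V} {q l : ℕ} {Y : ℕ → Finset V} {τ : ℕ → ℕ}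
    (H : TailHyp G W X q l Y τ) {K0 A : Finset V} (hK0 : K0 ⊆ X) (hK : G.IsNClique (l + 3) K0)
    (hA : A ⊆ K0) :
    1 + (l + 3 - A.card) * l ≤ ((cl G W (l + 3)).filter (fun K => A ⊆ K)).card := by
  classical
  set F : V → Finset (Finset V) := fun z =>
    ((cl G W (l + 3)).filter (fun K => K0.erase z ⊆ K)).erase K0 with hF
  have hFc : ∀ z ∈ K0 \ A, l ≤ (F z).card := by
    intro z hz
    have hzK : z ∈ K0 := (Finset.mem_sdiff.1 hz).1
    have hR : G.IsNClique (l + 2) (K0.erase z) := by
      refine ⟨hK.1.subset (by simp), ?_⟩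
      rw [Finset.card_erase_of_mem hzK, hK.2]; omega
    have h1 := H.superK ((Finset.erase_subset _ _).trans hK0) hR
    have h2 : ((cl G W (l + 3)).filter (fun K => K0.erase z ⊆ K)).card ≤ (F z).card + 1 := by
      have := Finset.pred_card_le_card_erase (s := (cl G W (l + 3)).filter (fun K => K0.erase z ⊆ K)) (a := K0)
      simp only [hF]
      omega
    omega
  have hdisj : Set.PairwiseDisjoint (↑(K0 \ A)) F := by
    intro z hz z' hz' hne
    rw [Function.onFun, Finset.disjoint_left]
    intro K hK1 hK2
    simp only [hF, Finset.mem_erase, Finset.mem_filter] at hK1 hK2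
    apply hK1.1
    have hsub : K0 ⊆ K := by
      intro w hw
      by_cases h : w = z
      · apply hK2.2.2
        rw [Finset.mem_erase]
        exact ⟨fun h' => hne (h.symm.trans h'), hw⟩
      · apply hK1.2.2
        rw [Finset.mem_erase]
        exact ⟨h, hw⟩
    have hc1 := ((mem_cl G).1 hK1.2.1).2.2
    have hc2 := hK.2
    exact (Finset.eq_of_subset_of_card_le hsub (by omega)).symm
  have hunion : insert K0 ((K0 \ A).biUnion F) ⊆ (cl G W (l + 3)).filter (fun K => A ⊆ K) := by
    intro K hKm
    rw [Finset.mem_insert] at hKm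
    rw [Finset.mem_filter]
    rcases hKm with rfl | hKm
    · exact ⟨(mem_cl G).2 ⟨hK0.trans H.hXW, hK⟩, hA⟩
    · rw [Finset.mem_biUnion] at hKm
      obtain ⟨z, hz, hKz⟩ := hKm
      simp only [hF, Finset.mem_erase, Finset.mem_filter] at hKz
      refine ⟨hKz.2.1, ?_⟩
      intro a ha
      apply hKz.2.2
      rw [Finset.mem_erase]
      refine ⟨?_, hA ha⟩
      rintro rfl
      exact (Finset.mem_sdiff.1 hz).2 ha
  have hnot : K0 ∉ (K0 \ A).biUnion F := by
    rw [Finset.mem_biUnion]
    rintro ⟨z, _, hz⟩
    simp [hF] at hz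
  have h3 := Finset.card_le_card hunion
  rw [Finset.card_insert_of_notMem hnot, Finset.card_biUnion hdisj] at h3
  have h4 : (K0 \ A).card * l ≤ ∑ z ∈ K0 \ A, (F z).card := by
    rw [← smul_eq_mul, ← Finset.sum_const]
    exact Finset.sum_le_sum hFc
  have h5 : (K0 \ A).card = l + 3 - A.card := by
    rw [Finset.card_sdiff_of_subset hA, hK.2]
  rw [h5] at h4
  omega

/-- the counting lemma -/
lemma TailHyp.count {W X : Finset V} {q l : ℕ} {Y : ℕ → Finset V} {τ : ℕ → ℕ}
    (_H : TailHyp G W X q l Y τ) (S0 B : Finset V) (hBX : B ⊆ X) (M : ℕ) (hM : 0 < M)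
    (h1 : ∀ S, IsMaxClq G X S → S0 ⊆ S → (S ∩ B).Nonempty → S.card ≤ l + 2 →
      (S ∩ B).card ≤ ((cl G W (l + 3)).filter (fun K => K ∩ X = S)).card)
    (h2 : ∀ b ∈ B, (∀ S, IsMaxClq G X S → S0 ⊆ S → b ∈ S → l + 3 ≤ S.card) →
      M ≤ ((cl G W (l + 3)).filter (fun K => S0 ⊆ K ∧ b ∈ K)).card)
    (h3 : ∀ K ∈ cl G W (l + 3), S0 ⊆ K → (K ∩ B).card ≤ M) :
    B.card ≤ ((cl G W (l + 3)).filter (fun K => S0 ⊆ K ∧ (K ∩ B).Nonempty)).card := by
  classical
  set B1 := B.filter (fun b => ∃ S, IsMaxClq G X S ∧ S0 ⊆ S ∧ b ∈ S ∧ S.card ≤ l + 2) with hB1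
  set B2 := B \ B1 with hB2
  have hch : ∀ b ∈ B1, ∃ S, IsMaxClq G X S ∧ S0 ⊆ S ∧ b ∈ S ∧ S.card ≤ l + 2 := by
    intro b hb
    rw [hB1, Finset.mem_filter] at hb
    exact hb.2
  choose! f hf1 hf2 hf3 hf4 using hch
  -- first family
  set 𝒮 := B1.image f with h𝒮
  have e1 : B1.card ≤ ((cl G W (l + 3)).filter (fun K => K ∩ X ∈ 𝒮)).card := by
    have a1 : (cl G W (l + 3)).filter (fun K => K ∩ X ∈ 𝒮) =
        𝒮.biUnion (fun S => (cl G W (l + 3)).filter (fun K => K ∩ X = S)) := by
      ext K
      simp only [Finset.mem_filter, Finset.mem_biUnion]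
      constructor
      · rintro ⟨ha, hb⟩
        exact ⟨K ∩ X, hb, ha, rfl⟩
      · rintro ⟨S, hS, ha, rfl⟩
        exact ⟨ha, hS⟩
    rw [a1, Finset.card_biUnion]
    · have a2 : B1.card ≤ ∑ S ∈ 𝒮, (S ∩ B).card := by
        have : B1 ⊆ 𝒮.biUnion (fun S => S ∩ B) := by
          intro b hb
          rw [Finset.mem_biUnion]
          refine ⟨f b, Finset.mem_image_of_mem f hb, ?_⟩
          rw [Finset.mem_inter]
          exact ⟨hf3 b hb, (Finset.mem_filter.1 hb).1⟩
        exact (Finset.card_le_card this).trans Finset.card_biUnion_le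
      refine a2.trans (Finset.sum_le_sum ?_)
      intro S hS
      rw [h𝒮, Finset.mem_image] at hS
      obtain ⟨b, hb, rfl⟩ := hS
      exact h1 (f b) (hf1 b hb) (hf2 b hb)
        ⟨b, Finset.mem_inter.2 ⟨hf3 b hb, (Finset.mem_filter.1 hb).1⟩⟩ (hf4 b hb)
    · intro S _ S' _ hne
      rw [Function.onFun, Finset.disjoint_left]
      intro K hK hK'
      rw [Finset.mem_filter] at hK hK'
      exact hne (hK.2.symm.trans hK'.2)
  -- second family
  have e2 : B2.card ≤ ((cl G W (l + 3)).filter (fun K => S0 ⊆ K ∧ (K ∩ B2).Nonempty)).card := by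
    have a1 : ∀ b ∈ B2, M ≤ ((cl G W (l + 3)).filter (fun K => S0 ⊆ K ∧ b ∈ K)).card := by
      intro b hb
      rw [hB2, Finset.mem_sdiff] at hb
      apply h2 b hb.1
      intro S hS hS0 hbS
      by_contra hlt
      apply hb.2
      rw [hB1, Finset.mem_filter]
      exact ⟨hb.1, S, hS, hS0, hbS, by omega⟩
    have a2 : B2.card * M ≤
        ∑ b ∈ B2, ((cl G W (l + 3)).filter (fun K => S0 ⊆ K ∧ b ∈ K)).card := by
      rw [← smul_eq_mul, ← Finset.sum_const]
      exact Finset.sum_le_sum a1
    have a3 : ∑ b ∈ B2, ((cl G W (l + 3)).filter (fun K => S0 ⊆ K ∧ b ∈ K)).card =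
        ∑ K ∈ (cl G W (l + 3)).filter (fun K => S0 ⊆ K ∧ (K ∩ B2).Nonempty), (K ∩ B2).card := by
      have : ∀ b ∈ B2, (cl G W (l + 3)).filter (fun K => S0 ⊆ K ∧ b ∈ K) =
          ((cl G W (l + 3)).filter (fun K => S0 ⊆ K ∧ (K ∩ B2).Nonempty)).filter
            (fun K => b ∈ K) := by
        intro b hb
        ext K
        simp only [Finset.mem_filter]
        constructor
        · rintro ⟨ha, hb', hc⟩
          exact ⟨⟨ha, hb', b, Finset.mem_inter.2 ⟨hc, hb⟩⟩, hc⟩
        · rintro ⟨⟨ha, hb', _⟩, hc⟩
          exact ⟨ha, hb', hc⟩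
      rw [Finset.sum_congr rfl (fun b hb => by rw [this b hb])]
      simp only [Finset.card_filter]
      rw [Finset.sum_comm]
      apply Finset.sum_congr rfl
      intro K _
      rw [← Finset.card_filter]
      congr 1
      ext b
      simp [Finset.mem_inter, and_comm]
    have a4 : ∑ K ∈ (cl G W (l + 3)).filter (fun K => S0 ⊆ K ∧ (K ∩ B2).Nonempty), (K ∩ B2).card
        ≤ ((cl G W (l + 3)).filter (fun K => S0 ⊆ K ∧ (K ∩ B2).Nonempty)).card * M := by
      rw [← smul_eq_mul, ← Finset.sum_const]
      apply Finset.sum_le_sum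
      intro K hK
      rw [Finset.mem_filter] at hK
      refine le_trans (Finset.card_le_card ?_) (h3 K hK.1 hK.2.1)
      exact Finset.inter_subset_inter_left Finset.sdiff_subset
    have a5 : B2.card * M ≤
        ((cl G W (l + 3)).filter (fun K => S0 ⊆ K ∧ (K ∩ B2).Nonempty)).card * M := by
      rw [a3] at a2
      exact a2.trans a4
    exact Nat.le_of_mul_le_mul_right a5 hM
  -- disjointness
  set F1 := (cl G W (l + 3)).filter (fun K => K ∩ X ∈ 𝒮) with hF1
  set F2 := (cl G W (l + 3)).filter (fun K => S0 ⊆ K ∧ (K ∩ B2).Nonempty) with hF2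
  have hd : Disjoint F1 F2 := by
    rw [Finset.disjoint_left]
    intro K hK1 hK2
    rw [hF1, Finset.mem_filter] at hK1
    rw [hF2, Finset.mem_filter] at hK2
    obtain ⟨b2, hb2⟩ := hK2.2.2
    rw [Finset.mem_inter, hB2, Finset.mem_sdiff] at hb2
    rw [h𝒮, Finset.mem_image] at hK1
    obtain ⟨_, b, hb, hbf⟩ := hK1
    apply hb2.2.2
    rw [hB1, Finset.mem_filter]
    refine ⟨hb2.2.1, f b, hf1 b hb, hf2 b hb, ?_, hf4 b hb⟩
    rw [hbf, Finset.mem_inter]
    exact ⟨hb2.1, hBX hb2.2.1⟩
  have hsub : F1 ∪ F2 ⊆ (cl G W (l + 3)).filter (fun K => S0 ⊆ K ∧ (K ∩ B).Nonempty) := by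
    intro K hK
    rw [Finset.mem_union] at hK
    rw [Finset.mem_filter]
    rcases hK with hK | hK
    · rw [hF1, Finset.mem_filter, h𝒮, Finset.mem_image] at hK
      obtain ⟨hKc, b, hb, hbf⟩ := hK
      refine ⟨hKc, ?_, b, ?_⟩
      · exact (hf2 b hb).trans (hbf ▸ Finset.inter_subset_left)
      · rw [Finset.mem_inter]
        have : b ∈ K ∩ X := hbf ▸ hf3 b hb
        exact ⟨(Finset.mem_inter.1 this).1, (Finset.mem_filter.1 hb).1⟩
    · rw [hF2, Finset.mem_filter] at hK
      refine ⟨hK.1, hK.2.1, hK.2.2.mono ?_⟩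
      exact Finset.inter_subset_inter_left Finset.sdiff_subset
  have h5 := Finset.card_le_card hsub
  rw [Finset.card_union_of_disjoint hd] at h5
  have h6 : B2.card + B1.card = B.card := by
    rw [hB2]
    exact Finset.card_sdiff_add_card_eq_card (Finset.filter_subset _ _)
  omega

/-- With a tail of strictly larger values, there are at least `q` cliques. -/
lemma TailHyp.main {W X : Finset V} {q l : ℕ} {Y : ℕ → Finset V} {τ : ℕ → ℕ}
    (H : TailHyp G W X q l Y τ) (hl : 1 ≤ l) : q ≤ (cl G W (l + 3)).card := by
  classical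
  have hX := H.hX
  obtain ⟨x, hx⟩ := Finset.card_pos.1 (by omega : 0 < X.card)
  set B := X.filter (fun w => G.Adj x w) with hB
  set F := (X.filter (fun w => ¬ G.Adj x w)).erase x with hF
  have hxF : x ∈ X.filter (fun w => ¬ G.Adj x w) := by simp [hx]
  have hcard : B.card + F.card = q := by
    have h1 : B.card + nn G X x = X.card := card_nb G X x
    have h2 : F.card = nn G X x - 1 := by
      rw [hF, Finset.card_erase_of_mem hxF]
      rfl
    have h3 : 0 < nn G X x := Finset.card_pos.2 ⟨x, hxF⟩
    omega
  -- first claim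
  have c1 := H.count {x} B (Finset.filter_subset _ _) (l + 2) (by omega) ?_ ?_ ?_
  · -- second claim
    have c2 := H.count ∅ F ((Finset.erase_subset _ _).trans (Finset.filter_subset _ _))
      (l + 3) (by omega) ?_ ?_ ?_
    · have hd : Disjoint ((cl G W (l + 3)).filter (fun K => {x} ⊆ K ∧ (K ∩ B).Nonempty))
          ((cl G W (l + 3)).filter (fun K => ∅ ⊆ K ∧ (K ∩ F).Nonempty)) := by
        rw [Finset.disjoint_left]
        intro K hK1 hK2
        rw [Finset.mem_filter] at hK1 hK2
        obtain ⟨f, hf⟩ := hK2.2.2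
        rw [Finset.mem_inter, hF, Finset.mem_erase, Finset.mem_filter] at hf
        have hxK : x ∈ K := by simpa using hK1.2.1
        exact hf.2.2.2 (((mem_cl G).1 hK1.1).2.1 hxK hf.1 (Ne.symm hf.2.1))
      have h5 : ((cl G W (l + 3)).filter (fun K => {x} ⊆ K ∧ (K ∩ B).Nonempty)) ∪
          ((cl G W (l + 3)).filter (fun K => ∅ ⊆ K ∧ (K ∩ F).Nonempty)) ⊆ cl G W (l + 3) :=
        Finset.union_subset (Finset.filter_subset _ _) (Finset.filter_subset _ _)
      have h6 := Finset.card_le_card h5
      rw [Finset.card_union_of_disjoint hd] at h6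
      omega
    · -- h1 for the second claim
      intro S hS _ hne hSl
      have h2 := H.two_le hS
      obtain ⟨κ, hκ⟩ : ∃ κ, S.card = κ + 2 := ⟨S.card - 2, by omega⟩
      by_cases hSF : S ⊆ F
      · have := H.trace (S := S) (κ := κ) (e := 1) (by omega) hS hκ
          (card_miss_succ_le G X S x hx h2 (by
            intro s hs ha
            have := hSF hs
            rw [hF, Finset.mem_erase, Finset.mem_filter] at this
            exact this.2.2 ha.symm))
        refine le_trans (Finset.card_le_card Finset.inter_subset_left) ?_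
        omega
      · have := H.trace (S := S) (κ := κ) (e := 0) (by omega) hS hκ (by
          rw [add_zero]; exact card_miss_le G X S)
        have h3 : (S ∩ F).card < S.card := by
          apply Finset.card_lt_card
          rw [Finset.ssubset_iff_subset_ne]
          refine ⟨Finset.inter_subset_left, ?_⟩
          intro h
          exact hSF (Finset.inter_eq_left.1 h)
        omega
    · -- h2 for the second claim
      intro b hb hall
      have hbX : b ∈ X := (Finset.filter_subset _ _) (Finset.erase_subset _ _ hb)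
      obtain ⟨S, hS, hAS⟩ := exists_maxClq (G := G) (X := X) (A := {b}) (by simpa using hbX)
        (by simp)
      have hbS : b ∈ S := hAS (by simp)
      have hSc := hall S hS (Finset.empty_subset _) hbS
      obtain ⟨K0, hK01, hK02, hK03⟩ := Finset.exists_subsuperset_card_eq hAS
        (by simp) hSc
      have h1 := H.around (K0 := K0) (A := {b}) (hK02.trans hS.1)
        ⟨hS.2.1.subset (by exact_mod_cast hK02), hK03⟩ hK01
      rw [Finset.card_singleton] at h1
      have h2 : ((cl G W (l + 3)).filter (fun K => {b} ⊆ K)).card =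
          ((cl G W (l + 3)).filter (fun K => ∅ ⊆ K ∧ b ∈ K)).card := by
        congr 1
        ext K
        simp
      rw [← h2]
      have h3 : l + 3 - 1 = l + 2 := by omega
      rw [h3] at h1
      nlinarith
    · intro K hK _
      refine (Finset.card_le_card Finset.inter_subset_left).trans ?_
      rw [((mem_cl G).1 hK).2.2]
  · -- h1 for the first claim
    intro S hS hxS hne hSl
    have h2 := H.two_le hS
    obtain ⟨κ, hκ⟩ : ∃ κ, S.card = κ + 2 := ⟨S.card - 2, by omega⟩
    have := H.trace (S := S) (κ := κ) (e := 0) (by omega) hS hκ (by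
      rw [add_zero]; exact card_miss_le G X S)
    have hxS' : x ∈ S := by simpa using hxS
    have h3 : (S ∩ B).card < S.card := by
      apply Finset.card_lt_card
      rw [Finset.ssubset_iff_of_subset Finset.inter_subset_left]
      refine ⟨x, hxS', ?_⟩
      rw [Finset.mem_inter, hB, Finset.mem_filter]
      rintro ⟨_, _, h⟩
      exact G.loopless.irrefl x h
    omega
  · -- h2 for the first claim
    intro b hb hall
    rw [hB, Finset.mem_filter] at hb
    have hne : x ≠ b := hb.2.ne
    obtain ⟨S, hS, hAS⟩ := exists_maxClq (G := G) (X := X) (A := {x, b})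
      (by
        intro z hz
        simp only [Finset.mem_insert, Finset.mem_singleton] at hz
        rcases hz with rfl | rfl
        · exact hx
        · exact hb.1)
      (by
        rw [Finset.coe_pair, SimpleGraph.isClique_pair]
        exact fun _ => hb.2)
    have hbS : b ∈ S := hAS (by simp)
    have hxS : x ∈ S := hAS (by simp)
    have hSc := hall S hS (by simpa using hxS) hbS
    obtain ⟨K0, hK01, hK02, hK03⟩ := Finset.exists_subsuperset_card_eq hAS
      (by rw [Finset.card_pair hne]; omega) hSc
    have h1 := H.around (K0 := K0) (A := {x, b}) (hK02.trans hS.1)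
      ⟨hS.2.1.subset (by exact_mod_cast hK02), hK03⟩ hK01
    rw [Finset.card_pair hne] at h1
    have h2 : ((cl G W (l + 3)).filter (fun K => {x, b} ⊆ K)).card =
        ((cl G W (l + 3)).filter (fun K => {x} ⊆ K ∧ b ∈ K)).card := by
      congr 1
      ext K
      simp only [Finset.mem_filter, Finset.insert_subset_iff, Finset.singleton_subset_iff]
    rw [← h2]
    have h3 : l + 3 - 2 = l + 1 := by omega
    rw [h3] at h1
    nlinarith
  · intro K hK hxK
    have hxK' : x ∈ K := by simpa using hxK
    have h3 : (K ∩ B).card < K.card := by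
      apply Finset.card_lt_card
      rw [Finset.ssubset_iff_of_subset Finset.inter_subset_left]
      refine ⟨x, hxK', ?_⟩
      rw [Finset.mem_inter, hB, Finset.mem_filter]
      rintro ⟨_, _, h⟩
      exact G.loopless.irrefl x h
    rw [((mem_cl G).1 hK).2.2] at h3
    omega

end tail

section seq

variable {V : Type*} [DecidableEq V] (G : SimpleGraph V) [DecidableRel G.Adj]

/-- greedy sequence hypotheses -/
structure SeqHyp (W : Finset V) (r : ℕ) (q : ℕ → ℕ) : Prop where
  hX : ∀ i < r, (∑ k ∈ range i, q k) + 1 ≤ (W.filter (fun v => nn G W v ≤ q i)).card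
  hW : (∑ k ∈ range r, q k) + 1 ≤ W.card
  hm : ∀ i, i + 1 < r → q i ≤ q (i + 1)

variable {G}

lemma SeqHyp.one_le {W : Finset V} {r : ℕ} {q : ℕ → ℕ} (H : SeqHyp G W r q) :
    1 ≤ (cl G W (r + 1)).card := by
  have := greedy G r W (fun i => W.filter (fun v => nn G W v ≤ q i)) q 0
    (fun j _ v hv _ => (Finset.mem_filter.1 hv).2)
    (fun j hj => by
      rw [Finset.inter_eq_left.2 (Finset.filter_subset _ _)]
      exact H.hX j hj)
    (by simpa using H.hW)
  simpa using this

lemma SeqHyp.ordered {W : Finset V} {r : ℕ} {q : ℕ → ℕ} (H : SeqHyp G W r q) (hr : 1 ≤ r) :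
    (q 0 + 1) ^ ((range (r - 1)).filter (fun i => q i = q (i + 1))).card ≤
      (r + 1).factorial * (cl G W (r + 1)).card := by
  have h0 : ∀ i < r, q 0 ≤ q i := by
    intro i
    induction i with
    | zero => intro _; exact le_rfl
    | succ i ih => intro h; exact (ih (by omega)).trans (H.hm i h)
  have := ForcedCliques.ordered G r W (fun i => W.filter (fun v => nn G W v ≤ q i)) q
    (fun i => if i + 1 < r ∧ q i = q (i + 1) then q i + 1 else 1)
    (fun j _ v hv _ => (Finset.mem_filter.1 hv).2)
    (fun j hj => by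
      rw [Finset.inter_eq_left.2 (Finset.filter_subset _ _)]
      split_ifs with h
      · have h1 := H.hX (j + 1) h.1
        rw [Finset.sum_range_succ, ← h.2] at h1
        omega
      · exact H.hX j hj)
    H.hW
  refine le_trans ?_ this
  obtain ⟨r', rfl⟩ : ∃ r', r = r' + 1 := ⟨r - 1, by omega⟩
  rw [Finset.prod_range_succ, Nat.add_sub_cancel]
  have h2 : (if r' + 1 < r' + 1 ∧ q r' = q (r' + 1) then q r' + 1 else 1) = 1 := by
    rw [if_neg]; rintro ⟨h, _⟩; exact lt_irrefl _ h
  rw [h2, mul_one]
  rw [← Finset.prod_const, Finset.prod_filter]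
  apply Finset.prod_le_prod'
  intro i hi
  rw [Finset.mem_range] at hi
  by_cases h : q i = q (i + 1)
  · rw [if_pos h, if_pos ⟨by omega, h⟩]
    have := h0 i (by omega)
    omega
  · rw [if_neg h, if_neg (fun h' => h h'.2)]

/-- passing to a neighbourhood -/
lemma SeqHyp.shift {W : Finset V} {r : ℕ} {q : ℕ → ℕ} (H : SeqHyp G W (r + 1) q) :
    ∃ W' : Finset V, SeqHyp G W' r (fun i => q (i + 1)) ∧
      (cl G W' (r + 1)).card ≤ (cl G W (r + 2)).card := by
  have h0 := H.hX 0 (by omega)
  simp only [Finset.range_zero, Finset.sum_empty, zero_add] at h0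
  obtain ⟨v, hv⟩ := Finset.card_pos.1 (by omega : 0 < (W.filter (fun v => nn G W v ≤ q 0)).card)
  rw [Finset.mem_filter] at hv
  refine ⟨cnb G W {v}, ⟨?_, ?_, ?_⟩, ?_⟩
  · intro i hi
    have h1 := H.hX (i + 1) (by omega)
    rw [Finset.sum_range_succ'] at h1
    have h2 : (W.filter (fun w => nn G W w ≤ q (i + 1))).card ≤
        ((cnb G W {v}).filter (fun w => nn G (cnb G W {v}) w ≤ q (i + 1))).card + nn G W v := by
      have : W.filter (fun w => nn G W w ≤ q (i + 1)) ⊆
          ((cnb G W {v}).filter (fun w => nn G (cnb G W {v}) w ≤ q (i + 1))) ∪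
            W.filter (fun w => ¬ G.Adj v w) := by
        intro w hw
        rw [Finset.mem_filter] at hw
        rw [Finset.mem_union, Finset.mem_filter, Finset.mem_filter]
        by_cases ha : G.Adj v w
        · left
          refine ⟨(mem_cnb G).2 ⟨hw.1, by simpa using ha⟩, ?_⟩
          exact (nn_mono G (Finset.filter_subset _ _) w).trans hw.2
        · right; exact ⟨hw.1, ha⟩
      exact (Finset.card_le_card this).trans (Finset.card_union_le _ _)
    have := hv.2
    omega
  · have h1 := H.hW
    rw [Finset.sum_range_succ'] at h1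
    have h2 := card_nb G W v
    have h3 : cnb G W {v} = W.filter (fun w => G.Adj v w) := by
      ext w; simp [cnb]
    rw [h3]
    have := hv.2
    omega
  · intro i hi
    exact H.hm (i + 1) (by omega)
  · have hS : G.IsNClique 1 ({v} : Finset V) := by simp
    have := card_super G (W := W) (S := {v}) (i := 1) (j := r + 1) (by simpa using hv.1) hS
      (fun _ => True) (fun _ _ => trivial)
    refine this.trans ?_
    rw [show 1 + (r + 1) = r + 2 by ring]
    exact Finset.card_le_card (Finset.filter_subset _ _)

lemma SeqHyp.nonjump (i : ℕ) : ∀ {W : Finset V} {r : ℕ} {q : ℕ → ℕ} (_ : SeqHyp G W r q)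
    (_ : i + 1 < r) (_ : q i = q (i + 1))
    (_ : ∀ j, i + 1 ≤ j → j + 1 < r → q j < q (j + 1)), q i ≤ (cl G W (r + 1)).card := by
  induction i with
  | zero =>
    intro W r q H hr hq hj
    have h1 := H.hX 1 (by omega)
    rw [Finset.sum_range_one] at h1
    obtain ⟨X, hXs, hXc⟩ := Finset.exists_subset_card_eq h1
    rcases Nat.lt_or_ge 2 r with h | h
    · obtain ⟨l, rfl⟩ : ∃ l, r = l + 2 := ⟨r - 2, by omega⟩
      have hge : ∀ j < l, q 0 + 1 ≤ q (j + 2) := by
        intro j
        induction j with
        | zero =>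
          intro _
          have := hj 1 le_rfl (by omega)
          have e2 : q (1 + 1) = q (0 + 2) := rfl
          rw [e2] at this
          simp only [zero_add] at *
          omega
        | succ j ih =>
          intro h'
          have a1 := ih (by omega)
          have a2 := hj (j + 2) (by omega) (by omega)
          have a3 : q (j + 2 + 1) = q (j + 1 + 2) := rfl
          omega
      have hs : ∀ j, ∑ k ∈ range (j + 2), q k = 2 * q 0 + ∑ k ∈ range j, q (k + 2) := by
        intro j
        rw [Finset.sum_range_succ', Finset.sum_range_succ']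
        have e2 : ∑ k ∈ range j, q (k + 1 + 1) = ∑ k ∈ range j, q (k + 2) := rfl
        rw [e2]
        simp only [zero_add] at *
        omega
      have T : TailHyp G W X (q 0) l (fun j => W.filter (fun v => nn G W v ≤ q (j + 2)))
          (fun j => q (j + 2)) := by
        refine ⟨hXs.trans (Finset.filter_subset _ _), hXc, ?_, hge, ?_, ?_, ?_⟩
        · intro x hx
          have := (Finset.mem_filter.1 (hXs hx)).2
          simp only [zero_add] at *
          omega
        · intro j _ v hv _
          exact (Finset.mem_filter.1 hv).2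
        · intro j hj'
          have := H.hX (j + 2) (by omega)
          rw [hs] at this
          rw [Finset.inter_eq_left.2 (Finset.filter_subset _ _)]
          exact this
        · have := H.hW
          rw [hs] at this
          exact this
      exact T.main (by omega)
    · have hr2 : r = 2 := by omega
      subst hr2
      have h2 := H.hW
      rw [Finset.sum_range_succ, Finset.sum_range_one] at h2
      apply tri G (q 0) W X (hXs.trans (Finset.filter_subset _ _)) (by omega)
      · simp only [zero_add] at *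
        omega
      · intro x hx
        have := (Finset.mem_filter.1 (hXs hx)).2
        simp only [zero_add] at *
        omega
  | succ i ih =>
    intro W r q H hr hq hj
    obtain ⟨r', rfl⟩ : ∃ r', r = r' + 1 := ⟨r - 1, by omega⟩
    obtain ⟨W', H', hle⟩ := H.shift
    have := ih H' (by omega) hq (fun j h1 h2 => hj (j + 1) (by omega) (by omega))
    exact this.trans hle

lemma SeqHyp.q_le {W : Finset V} {r : ℕ} {q : ℕ → ℕ} (H : SeqHyp G W r q)
    (h : 0 < ((range (r - 1)).filter (fun i => q i = q (i + 1))).card) :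
    q 0 ≤ (cl G W (r + 1)).card := by
  classical
  have h0 : ∀ i < r, q 0 ≤ q i := by
    intro i
    induction i with
    | zero => intro _; exact le_rfl
    | succ i ih => intro h; exact (ih (by omega)).trans (H.hm i h)
  set F := (range (r - 1)).filter (fun i => q i = q (i + 1)) with hF
  have hne : F.Nonempty := Finset.card_pos.1 h
  set i := F.max' hne with hi
  have hiF : i ∈ F := F.max'_mem hne
  rw [hF, Finset.mem_filter, Finset.mem_range] at hiF
  have := SeqHyp.nonjump i H (by omega) hiF.2 ?_
  · exact (h0 i (by omega)).trans this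
  · intro j h1 h2
    have h3 := H.hm j h2
    rcases Nat.lt_or_ge (q j) (q (j + 1)) with h4 | h4
    · exact h4
    · exfalso
      have : j ∈ F := by
        rw [hF, Finset.mem_filter, Finset.mem_range]
        exact ⟨by omega, by omega⟩
      have := F.le_max' j this
      omega

lemma jumps_sum (q : ℕ → ℕ) : ∀ k : ℕ, (∀ i < k, q i ≤ q (i + 1)) →
    q 0 + ((range k).filter (fun i => q i ≠ q (i + 1))).card ≤ q k ∧
    2 * ((k + 1) * q 0) + ((range k).filter (fun i => q i ≠ q (i + 1))).card *
      (((range k).filter (fun i => q i ≠ q (i + 1))).card + 1) ≤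
      2 * ∑ i ∈ range (k + 1), q i := by
  intro k
  induction k with
  | zero => intro _; simp
  | succ k ih =>
    intro h
    obtain ⟨h1, h2⟩ := ih (fun i hi => h i (by omega))
    have h3 := h k (by omega)
    rw [Finset.range_add_one, Finset.filter_insert]
    rw [Finset.sum_range_succ]
    set J := ((range k).filter (fun i => q i ≠ q (i + 1))).card with hJ
    split_ifs with hq
    · rw [Finset.card_insert_of_notMem (by simp), ← hJ]
      refine ⟨by omega, ?_⟩
      have : q 0 + J + 1 ≤ q (k + 1) := by omega
      nlinarith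
    · rw [← hJ]
      have hq' : q k = q (k + 1) := by
        by_contra h'; exact hq h'
      refine ⟨by omega, ?_⟩
      nlinarith

end seq

/-- The exponent `r - 1 - s`, where `s ≤ r - 1` is largest with `s (s + 1) / 2 ≤ t`. -/
def sIdx (r t : ℕ) : ℕ := Nat.findGreatest (fun s => s * (s + 1) ≤ 2 * t) (r - 1)

section lb

variable {V : Type*} [DecidableEq V] {G : SimpleGraph V} [DecidableRel G.Adj]

lemma SeqHyp.lb {W : Finset V} {r : ℕ} {q : ℕ → ℕ} (H : SeqHyp G W r q) (hr : 1 ≤ r)
    {t : ℕ} (ht : W.card = 1 + r * q 0 + t) :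
    (q 0 + 1) ^ (r - 1 - sIdx r t) ≤ (r + 1).factorial * (cl G W (r + 1)).card ∧
    (0 < r - 1 - sIdx r t → q 0 ≤ (cl G W (r + 1)).card) ∧
    1 ≤ (cl G W (r + 1)).card := by
  obtain ⟨k, rfl⟩ : ∃ k, r = k + 1 := ⟨r - 1, by omega⟩
  have h1 := (jumps_sum q k (fun i hi => H.hm i (by omega))).2
  have h2 := H.hW
  set J := ((range k).filter (fun i => q i ≠ q (i + 1))).card with hJ
  have h3 : J * (J + 1) ≤ 2 * t := by
    rw [ht] at h2
    have : 2 * ((k + 1) * q 0) = 2 * ((k + 1) * q 0) := rfl
    omega
  have h4 : J ≤ k := by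
    rw [hJ]
    exact (Finset.card_filter_le _ _).trans (by simp)
  have h5 : J ≤ sIdx (k + 1) t := Nat.le_findGreatest (by simpa using h4) h3
  have h6 : ((range k).filter (fun i => q i = q (i + 1))).card + J = k := by
    have := Finset.card_filter_add_card_filter_not (s := range k) (fun i => q i = q (i + 1))
    rw [Finset.card_range] at this
    exact this
  have h7 := H.ordered hr
  rw [Nat.add_sub_cancel] at h7 ⊢
  refine ⟨?_, ?_, H.one_le⟩
  · refine le_trans ?_ h7
    exact Nat.pow_le_pow_right (by omega) (by omega)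
  · intro h8
    apply H.q_le
    rw [Nat.add_sub_cancel]
    omega

end lb

/-! ### Definitions for the problem -/

section defs

variable {n : ℕ}

/-- The degree of a vertex. -/
noncomputable def deg (G : SimpleGraph (Fin n)) (v : Fin n) : ℕ := (G.neighborSet v).ncard

/-- `d` lists the vertex degrees of `G` in nonincreasing order. -/
def IsDegSeq (G : SimpleGraph (Fin n)) (d : Fin n → ℕ) : Prop :=
  Antitone d ∧ ∃ σ : Equiv.Perm (Fin n), ∀ i, d i = deg G (σ i)

/-- `G` is degree-majorized by `H`: in nonincreasing order, `d_i ≤ d'_i` for every `i`. -/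
def DegMajorizedBy (G H : SimpleGraph (Fin n)) : Prop :=
  ∃ d d' : Fin n → ℕ, IsDegSeq G d ∧ IsDegSeq H d' ∧ ∀ i, d i ≤ d' i

/-- `G` is non-majorizable for `r`: no `r`-partite (i.e. `r`-colourable) graph on `n` vertices
degree-majorizes `G`. -/
def NonMajorizable (r : ℕ) (G : SimpleGraph (Fin n)) : Prop :=
  ¬ ∃ H : SimpleGraph (Fin n), H.Colorable r ∧ DegMajorizedBy G H

/-- The number of copies of `K_s` in `G`. -/
noncomputable def cliqueCount (G : SimpleGraph (Fin n)) (s : ℕ) : ℕ :=
  {S : Finset (Fin n) | G.IsNClique s S}.ncard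

/-- `G` has `n` vertices, maximum degree `k` and is non-majorizable for `r`. -/
def Admissible (n k r : ℕ) (G : SimpleGraph (Fin n)) : Prop :=
  (∀ v, deg G v ≤ k) ∧ (∃ v, deg G v = k) ∧ NonMajorizable r G

end defs

/-- The quantity `m(n,k,r)` of the problem. -/
noncomputable def minCliques (n k r : ℕ) : ℕ :=
  sInf {N | ∃ G : SimpleGraph (Fin n), Admissible n k r G ∧ cliqueCount G (r + 1) = N}

section conv

variable {n : ℕ} (G : SimpleGraph (Fin n)) [DecidableRel G.Adj]

lemma deg_add_nn (v : Fin n) : deg G v + nn G univ v = n := by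
  have h1 := card_nb G (univ : Finset (Fin n)) v
  rw [Finset.card_univ, Fintype.card_fin] at h1
  have h2 : deg G v = (univ.filter (fun w => G.Adj v w)).card := by
    unfold deg
    rw [← Set.ncard_coe_finset]
    congr 1
    ext w
    simp
  omega

lemma cliqueCount_eq (s : ℕ) : cliqueCount G s = (cl G univ s).card := by
  unfold cliqueCount
  rw [← Set.ncard_coe_finset]
  congr 1
  ext K
  simp [cl]

/-- sorted domination -/
lemma sorted_dom {a b : Fin n → ℕ} (ha : Antitone a) (hab : ∀ i, a i ≤ b i)
    (τ : Equiv.Perm (Fin n)) (hb : Antitone (fun i => b (τ i))) (i : Fin n) : a i ≤ b (τ i) := by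
  by_contra hlt
  push Not at hlt
  have h1 : (univ.filter (fun j => a i ≤ b (τ j))).card = (univ.filter (fun j => a i ≤ b j)).card :=
    Finset.card_bijective τ τ.bijective (by simp)
  have h2 : (Finset.Iic i).card ≤ (univ.filter (fun j => a i ≤ b j)).card := by
    apply Finset.card_le_card
    intro j hj
    rw [Finset.mem_Iic] at hj
    simp only [Finset.mem_filter, Finset.mem_univ, true_and]
    exact (ha hj).trans (hab j)
  have h3 : (univ.filter (fun j => a i ≤ b (τ j))).card ≤ (Finset.Iio i).card := by
    apply Finset.card_le_card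
    intro j hj
    simp only [Finset.mem_filter, Finset.mem_univ, true_and] at hj
    rw [Finset.mem_Iio]
    by_contra h
    push Not at h
    have := hb h
    simp only at this
    omega
  rw [Fin.card_Iic] at h2
  rw [Fin.card_Iio] at h3
  omega

/-- counting consequence of majorization -/
lemma count_of_majorized {G H : SimpleGraph (Fin n)} (h : DegMajorizedBy G H) (x : ℕ) :
    (univ.filter (fun v => x ≤ deg G v)).card ≤ (univ.filter (fun v => x ≤ deg H v)).card := by
  obtain ⟨d, d', ⟨_, σ, hσ⟩, ⟨_, τ, hτ⟩, hle⟩ := h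
  have h1 : (univ.filter (fun v => x ≤ deg G (σ v))).card =
      (univ.filter (fun v => x ≤ deg G v)).card :=
    Finset.card_bijective σ σ.bijective (by simp)
  have h2 : (univ.filter (fun v => x ≤ deg H (τ v))).card =
      (univ.filter (fun v => x ≤ deg H v)).card :=
    Finset.card_bijective τ τ.bijective (by simp)
  rw [← h1, ← h2]
  apply Finset.card_le_card
  intro v hv
  simp only [Finset.mem_filter, Finset.mem_univ, true_and] at hv ⊢
  have := hle v
  rw [hσ, hτ] at this
  omega

lemma exists_sort (H : SimpleGraph (Fin n)) :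
    ∃ τ : Equiv.Perm (Fin n), Antitone (fun i => deg H (τ i)) := by
  classical
  refine ⟨Tuple.sort (fun v => n - deg H v), ?_⟩
  intro i j hij
  have := Tuple.monotone_sort (fun v => n - deg H v) hij
  simp only [Function.comp_apply] at this
  have h1 := deg_add_nn H (Tuple.sort (fun v => n - deg H v) i)
  have h2 := deg_add_nn H (Tuple.sort (fun v => n - deg H v) j)
  simp only
  omega

/-- domination from a pointwise comparison along a sorting permutation -/
lemma majorized_of {G H : SimpleGraph (Fin n)} (σ : Equiv.Perm (Fin n))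
    (hσ : Antitone (fun i => deg G (σ i))) (h : ∀ i, deg G (σ i) ≤ deg H i) :
    DegMajorizedBy G H := by
  obtain ⟨τ, hτ⟩ := exists_sort H
  refine ⟨fun i => deg G (σ i), fun i => deg H (τ i), ⟨hσ, σ, fun _ => rfl⟩,
    ⟨hτ, τ, fun _ => rfl⟩, ?_⟩
  intro i
  exact sorted_dom hσ h τ hτ i

end conv

section greedyseq

variable {n : ℕ} (G : SimpleGraph (Fin n)) [DecidableRel G.Adj]

/-- A non-majorizable graph satisfies the greedy sequence hypotheses. -/
lemma exists_seq {r k : ℕ} (hr : 1 ≤ r) (hadm : Admissible n k r G) :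
    ∃ q : ℕ → ℕ, SeqHyp G univ r q ∧ q 0 = n - k := by
  classical
  obtain ⟨hk1, ⟨v0, hv0⟩, hnm⟩ := hadm
  have hn : 0 < n := v0.pos
  let c : Fin n → ℕ := fun v => nn G univ v
  let σ := Tuple.sort c
  have hmono : Monotone (c ∘ σ) := Tuple.monotone_sort c
  have hcn : ∀ v, c v ≤ n := fun v => by
    have := deg_add_nn G v
    simp only [c]; omega
  let a : ℕ → ℕ := fun j => if h : j < n then c (σ ⟨j, h⟩) else n
  have ha : Monotone a := by
    intro i j hij
    simp only [a]
    split_ifs with h1 h2 h2
    · exact hmono (show (⟨i, h1⟩ : Fin n) ≤ ⟨j, h2⟩ from hij)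
    · exact hcn _
    · omega
    · exact le_rfl
  have haf : ∀ j : Fin n, a j = c (σ j) := by
    intro j
    simp [a, j.2]
  let N : ℕ → ℕ := fun i => Nat.rec (motive := fun _ => ℕ) 0 (fun _ m => m + a m) i
  have hN0 : N 0 = 0 := rfl
  have hNs : ∀ i, N (i + 1) = N i + a (N i) := fun _ => rfl
  have hNm : Monotone N := monotone_nat_of_le_succ (fun i => by rw [hNs]; omega)
  have hsum : ∀ i, ∑ k ∈ range i, a (N k) = N i := by
    intro i
    induction i with
    | zero => rfl
    | succ i ih => rw [Finset.sum_range_succ, ih, hNs]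
  have hNr : N r < n := by
    by_contra hge
    push Not at hge
    apply hnm
    let f : Fin n → ℕ := fun j => Nat.findGreatest (fun i : ℕ => N i ≤ (j : ℕ)) (r - 1)
    have hf1 : ∀ j, f j ≤ r - 1 := by
      intro j
      exact Nat.findGreatest_le (P := fun i : ℕ => N i ≤ (j : ℕ)) (r - 1)
    have hf2 : ∀ j : Fin n, N (f j) ≤ j := by
      intro j
      have h := Nat.findGreatest_spec (P := fun i : ℕ => N i ≤ (j : ℕ)) (Nat.zero_le (r - 1))
        (by show N 0 ≤ (j : ℕ); rw [hN0]; exact Nat.zero_le _)
      exact h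
    have hf3 : ∀ j : Fin n, (j : ℕ) < N (f j + 1) := by
      intro j
      rcases Nat.lt_or_ge (f j) (r - 1) with h | h
      · have := Nat.findGreatest_is_greatest (P := fun i => N i ≤ (j : ℕ)) (n := r - 1)
          (k := f j + 1) (Nat.lt_succ_self _) (by omega)
        omega
      · have : f j + 1 = r := by have := hf1 j; omega
        rw [this]
        have := j.2
        omega
    let H : SimpleGraph (Fin n) := SimpleGraph.fromRel (fun i j => f i ≠ f j)
    have hH : ∀ i j, H.Adj i j ↔ f i ≠ f j := by
      intro i j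
      simp only [H, SimpleGraph.fromRel_adj]
      constructor
      · rintro ⟨_, h | h⟩
        · exact h
        · exact h.symm
      · intro h
        exact ⟨fun e => h (by rw [e]), Or.inl h⟩
    refine ⟨H, ?_, ?_⟩
    · refine ⟨SimpleGraph.Coloring.mk (fun j => (⟨f j, by have := hf1 j; omega⟩ : Fin r)) ?_⟩
      intro i j hij
      rw [hH] at hij
      intro h
      exact hij (Fin.mk.inj_iff.1 h)
    · apply majorized_of (σ := σ)
      · intro i j hij
        have := hmono hij
        simp only [Function.comp_apply, c] at this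
        have h1 := deg_add_nn G (σ i)
        have h2 := deg_add_nn G (σ j)
        simp only
        omega
      · intro j
        have h1 := deg_add_nn G (σ j)
        have h2 := deg_add_nn H j
        have h3 : nn H univ j ≤ nn G univ (σ j) := by
          have e1 : nn H univ j ≤ (Finset.Ico (N (f j)) (N (f j + 1))).card := by
            unfold nn
            apply Finset.card_le_card_of_injOn (fun w : Fin n => (w : ℕ))
            · intro w hw
              simp only [Finset.coe_filter, Finset.mem_univ, true_and, Set.mem_ofPred_eq, hH,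
                not_not] at hw
              rw [Finset.coe_Ico, Set.mem_Ico, hw]
              exact ⟨hf2 w, hf3 w⟩
            · intro w _ w' _ h
              exact Fin.ext h
          rw [Nat.card_Ico, hNs] at e1
          have e2 : a (N (f j)) ≤ a j := ha (hf2 j)
          rw [haf] at e2
          simp only [c] at e2
          omega
        omega
  refine ⟨fun i => a (N i), ⟨?_, ?_, ?_⟩, ?_⟩
  · intro i hi
    rw [hsum]
    have hNi : N i < n := lt_of_le_of_lt (hNm hi.le) hNr
    have : (Finset.Iic (⟨N i, hNi⟩ : Fin n)).card ≤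
        (univ.filter (fun v => nn G univ v ≤ a (N i))).card := by
      apply Finset.card_le_card_of_injOn (fun j : Fin n => σ j)
      · intro j hj
        simp only [Finset.coe_Iic, Set.mem_Iic] at hj
        simp only [Finset.coe_filter, Finset.mem_univ, true_and, Set.mem_ofPred_eq]
        have h1 := ha (show (j : ℕ) ≤ N i from hj)
        rw [haf] at h1
        exact h1
      · exact σ.injective.injOn
    rwa [Fin.card_Iic] at this
  · rw [hsum, Finset.card_univ, Fintype.card_fin]
    omega
  · intro i _
    exact ha (hNm (Nat.le_succ i))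
  · show a (N 0) = n - k
    rw [hN0]
    have h0 : a 0 = c (σ ⟨0, hn⟩) := by simp [a, hn]
    apply le_antisymm
    · obtain ⟨j, hj⟩ := σ.surjective v0
      have h1 : a 0 ≤ a j := ha (Nat.zero_le _)
      rw [haf, hj] at h1
      have h2 := deg_add_nn G v0
      simp only [c] at h1
      omega
    · rw [h0]
      have h2 := deg_add_nn G (σ ⟨0, hn⟩)
      have h3 := hk1 (σ ⟨0, hn⟩)
      simp only [c]
      omega

end greedyseq

section nonmaj

variable {n : ℕ}

/-- Criterion for non-majorizability. -/
lemma nonMajorizable_of (G : SimpleGraph (Fin n)) [DecidableRel G.Adj] (r : ℕ) (q : ℕ → ℕ)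
    (hq : ∀ i < r, (∑ k ∈ range i, q k) + 1 ≤ (univ.filter (fun v => nn G univ v ≤ q i)).card)
    (hs : (∑ k ∈ range r, q k) < n) : NonMajorizable r G := by
  classical
  rintro ⟨H, ⟨C⟩, hmaj⟩
  have hq' : ∀ i < r, (∑ k ∈ range i, q k) + 1 ≤
      (univ.filter (fun v => nn H univ v ≤ q i)).card := by
    intro i hi
    refine (hq i hi).trans ?_
    have h := count_of_majorized hmaj (n - q i)
    have e1 : (univ.filter (fun v => nn G univ v ≤ q i)) =
        (univ.filter (fun v => n - q i ≤ deg G v)) := by
      ext v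
      have := deg_add_nn G v
      simp only [Finset.mem_filter, Finset.mem_univ, true_and]
      omega
    have e2 : (univ.filter (fun v => nn H univ v ≤ q i)) =
        (univ.filter (fun v => n - q i ≤ deg H v)) := by
      ext v
      have := deg_add_nn H v
      simp only [Finset.mem_filter, Finset.mem_univ, true_and]
      omega
    rw [e1, e2]
    exact h
  have key : ∀ i ≤ r, ∃ S : Finset (Fin r), S.card = i ∧
      (univ.filter (fun v => C v ∈ S)).card ≤ ∑ k ∈ range i, q k := by
    intro i
    induction i with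
    | zero => intro _; exact ⟨∅, rfl, by simp⟩
    | succ i ih =>
      intro hi
      obtain ⟨S, hS, hSc⟩ := ih (by omega)
      have h1 := hq' i (by omega)
      have h2 : ∃ v ∈ univ.filter (fun v => nn H univ v ≤ q i),
          v ∉ univ.filter (fun v => C v ∈ S) := by
        by_contra hcon
        push Not at hcon
        have := Finset.card_le_card (show univ.filter (fun v => nn H univ v ≤ q i) ⊆
          univ.filter (fun v => C v ∈ S) from hcon)
        omega
      obtain ⟨v, hv1, hv2⟩ := h2
      simp only [Finset.mem_filter, Finset.mem_univ, true_and] at hv1 hv2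
      refine ⟨insert (C v) S, by rw [Finset.card_insert_of_notMem hv2, hS], ?_⟩
      rw [Finset.sum_range_succ]
      have h3 : univ.filter (fun w => C w ∈ insert (C v) S) ⊆
          univ.filter (fun w => C w ∈ S) ∪ univ.filter (fun w => ¬ H.Adj v w) := by
        intro w hw
        simp only [Finset.mem_filter, Finset.mem_univ, true_and, Finset.mem_insert,
          Finset.mem_union] at hw ⊢
        rcases hw with hw | hw
        · right
          intro ha
          exact C.valid ha hw.symm
        · left; exact hw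
      refine (Finset.card_le_card h3).trans ((Finset.card_union_le _ _).trans ?_)
      have h4 : (univ.filter (fun w => ¬ H.Adj v w)).card = nn H univ v := rfl
      omega
  obtain ⟨S, hS, hSc⟩ := key r le_rfl
  have hSu : S = univ := Finset.eq_univ_of_card S (by rw [hS, Fintype.card_fin])
  subst hSu
  have : (univ.filter (fun v => C v ∈ (univ : Finset (Fin r)))).card = n := by simp
  omega

end nonmaj

section construction

variable (n r b : ℕ) (M : ℕ → ℕ)

/-- the part containing position `v` -/
def part (v : ℕ) : ℕ := Nat.findGreatest (fun i => M i ≤ v) (r - 1)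

/-- positions joined to the last vertex -/
def full (v : ℕ) : Prop := part r M v < b ∨ v = M (part r M v)

/-- The extremal graph. -/
def ext : SimpleGraph (Fin n) :=
  SimpleGraph.fromRel (fun v w : Fin n =>
    ((v : ℕ) + 1 ≠ n ∧ (w : ℕ) + 1 ≠ n ∧ part r M v ≠ part r M w) ∨
    ((v : ℕ) + 1 = n ∧ (w : ℕ) + 1 ≠ n ∧ full r b M w))

variable {n r b M}

lemma ext_adj_of_ne {v w : Fin n} (hv : (v : ℕ) + 1 ≠ n) (hw : (w : ℕ) + 1 ≠ n) :
    (ext n r b M).Adj v w ↔ part r M v ≠ part r M w := by
  unfold ext
  rw [SimpleGraph.fromRel_adj]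
  constructor
  · rintro ⟨_, (⟨_, _, h⟩ | ⟨h, _⟩) | (⟨_, _, h⟩ | ⟨h, _⟩)⟩
    · exact h
    · exact absurd h hv
    · exact h.symm
    · exact absurd h hw
  · intro h
    exact ⟨fun e => h (by rw [e]), Or.inl (Or.inl ⟨hv, hw, h⟩)⟩

lemma ext_adj_last {v w : Fin n} (hv : (v : ℕ) + 1 = n) (hw : (w : ℕ) + 1 ≠ n) :
    (ext n r b M).Adj v w ↔ full r b M w := by
  unfold ext
  rw [SimpleGraph.fromRel_adj]
  constructor
  · rintro ⟨_, (⟨h, _, _⟩ | ⟨_, _, h⟩) | (⟨_, h, _⟩ | ⟨h, _⟩)⟩
    · exact absurd hv h
    · exact h
    · exact absurd hv h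
    · exact absurd h hw
  · intro h
    exact ⟨fun e => hw (by rw [← e]; exact hv), Or.inl (Or.inr ⟨hv, hw, h⟩)⟩

/-- parameters of the construction -/
structure Par (n r b p : ℕ) (sz : ℕ → ℕ) : Prop where
  hr : 2 ≤ r
  hb : b < r
  hp : 1 ≤ p
  hn : (∑ i ∈ range r, sz i) + 1 = n
  h0 : sz 0 = p
  hlt : ∀ i < b, sz i = p
  hge : ∀ i < r, p ≤ sz i
  hst : ∀ i, b ≤ i → i + 1 < r → sz i + 1 ≤ sz (i + 1)

/-- cut points -/
def cut (sz : ℕ → ℕ) (i : ℕ) : ℕ := ∑ k ∈ range i, sz k

variable {p : ℕ} {sz : ℕ → ℕ}

lemma cut_mono (sz : ℕ → ℕ) : Monotone (cut sz) :=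
  monotone_nat_of_le_succ (fun i => by unfold cut; rw [Finset.sum_range_succ]; omega)

lemma cut_succ (sz : ℕ → ℕ) (i : ℕ) : cut sz (i + 1) = cut sz i + sz i := by
  unfold cut; rw [Finset.sum_range_succ]

lemma part_le (v : ℕ) : part r M v ≤ r - 1 := Nat.findGreatest_le _

lemma cut_part_le (v : ℕ) : cut sz (part r (cut sz) v) ≤ v := by
  have := Nat.findGreatest_spec (P := fun i : ℕ => cut sz i ≤ v) (Nat.zero_le (r - 1))
    (by simp [cut])
  exact this

lemma Par.lt_cut (P : Par n r b p sz) {v : ℕ} (hv : v + 1 < n) :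
    v < cut sz (part r (cut sz) v + 1) := by
  rcases Nat.lt_or_ge (part r (cut sz) v) (r - 1) with h | h
  · have := Nat.findGreatest_is_greatest (P := fun i : ℕ => cut sz i ≤ v) (n := r - 1)
      (k := part r (cut sz) v + 1) (Nat.lt_succ_self _) (by omega)
    omega
  · have h1 := part_le (r := r) (M := cut sz) v
    have h2 := P.hr
    have : part r (cut sz) v + 1 = r := by omega
    rw [this]
    have h3 := P.hn
    unfold cut
    omega

lemma Par.part_eq (_P : Par n r b p sz) {v i : ℕ} (hi : i < r) (h1 : cut sz i ≤ v)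
    (h2 : v < cut sz (i + 1)) : part r (cut sz) v = i := by
  apply le_antisymm
  · by_contra h
    push Not at h
    have h3 := cut_part_le (r := r) (sz := sz) v
    have h4 := cut_mono sz (show i + 1 ≤ part r (cut sz) v from h)
    omega
  · exact Nat.le_findGreatest (by omega) h1

lemma Par.cut_lt (P : Par n r b p sz) {i : ℕ} (hi : i < r) : cut sz i + 1 < n := by
  have h1 := cut_mono sz (show i + 1 ≤ r from hi)
  have h2 := cut_succ sz i
  have h3 := P.hge i hi
  have h4 := P.hp
  have h5 := P.hn
  have h6 : cut sz r + 1 = n := h5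
  omega

/-- the part class, as a finset of vertices -/
lemma Par.class_card (P : Par n r b p sz) {i : ℕ} (hi : i < r) :
    ((univ : Finset (Fin n)).filter
      (fun w : Fin n => (w : ℕ) + 1 ≠ n ∧ part r (cut sz) w = i)).card = sz i := by
  have h6 : cut sz r + 1 = n := P.hn
  have h1 := cut_mono sz (show i + 1 ≤ r from hi)
  have e : sz i = (Finset.Ico (cut sz i) (cut sz (i + 1))).card := by
    rw [Nat.card_Ico, cut_succ]; omega
  rw [e]
  apply Finset.card_bij (fun (w : Fin n) _ => (w : ℕ))
  · intro w hw
    simp only [Finset.mem_filter, Finset.mem_univ, true_and] at hw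
    rw [Finset.mem_Ico, ← hw.2]
    have := w.2
    exact ⟨cut_part_le _, P.lt_cut (by omega)⟩
  · intro w _ w' _ h
    exact Fin.ext h
  · intro x hx
    rw [Finset.mem_Ico] at hx
    refine ⟨⟨x, by omega⟩, ?_, rfl⟩
    simp only [Finset.mem_filter, Finset.mem_univ, true_and]
    exact ⟨by omega, P.part_eq hi hx.1 hx.2⟩

open Classical in
lemma Par.nn_le (P : Par n r b p sz) {v : Fin n} (hv : (v : ℕ) + 1 ≠ n) :
    nn (ext n r b (cut sz)) univ v ≤ sz (part r (cut sz) v) + 1 := by
  have hr := P.hr
  have hi : part r (cut sz) v < r := by have := part_le (r := r) (M := cut sz) v; omega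
  have h1 := P.class_card hi
  have hv' := v.2
  have : (univ.filter (fun w => ¬ (ext n r b (cut sz)).Adj v w)) ⊆
      insert (⟨n - 1, by omega⟩ : Fin n) ((univ : Finset (Fin n)).filter
      (fun w : Fin n => (w : ℕ) + 1 ≠ n ∧ part r (cut sz) w = part r (cut sz) v)) := by
    intro w hw
    simp only [Finset.mem_filter, Finset.mem_univ, true_and] at hw
    rw [Finset.mem_insert]
    by_cases hw' : (w : ℕ) + 1 = n
    · left
      apply Fin.ext
      simp only
      omega
    · right
      simp only [Finset.mem_filter, Finset.mem_univ, true_and]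
      refine ⟨hw', ?_⟩
      by_contra h
      exact hw ((ext_adj_of_ne hv hw').2 (fun e => h e.symm))
  refine (Finset.card_le_card this).trans ((Finset.card_insert_le _ _).trans ?_)
  rw [h1]

open Classical in
lemma Par.nn_le_of_full (P : Par n r b p sz) {v : Fin n} (hv : (v : ℕ) + 1 ≠ n)
    (hf : full r b (cut sz) v) :
    nn (ext n r b (cut sz)) univ v ≤ sz (part r (cut sz) v) := by
  have hr := P.hr
  have hi : part r (cut sz) v < r := by have := part_le (r := r) (M := cut sz) v; omega
  have h1 := P.class_card hi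
  have : (univ.filter (fun w => ¬ (ext n r b (cut sz)).Adj v w)) ⊆
      ((univ : Finset (Fin n)).filter
      (fun w : Fin n => (w : ℕ) + 1 ≠ n ∧ part r (cut sz) w = part r (cut sz) v)) := by
    intro w hw
    simp only [Finset.mem_filter, Finset.mem_univ, true_and] at hw
    by_cases hw' : (w : ℕ) + 1 = n
    · exfalso
      exact hw ((ext_adj_last hw' hv).2 hf).symm
    · simp only [Finset.mem_filter, Finset.mem_univ, true_and]
      refine ⟨hw', ?_⟩
      by_contra h
      exact hw ((ext_adj_of_ne hv hw').2 (fun e => h e.symm))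
  refine (Finset.card_le_card this).trans ?_
  rw [h1]

open Classical in
lemma Par.le_nn (P : Par n r b p sz) (v : Fin n) :
    p ≤ nn (ext n r b (cut sz)) univ v := by
  have hr := P.hr
  by_cases hv : (v : ℕ) + 1 = n
  · -- the last vertex
    have hi : r - 1 < r := by omega
    have h1 := P.class_card hi
    have h2 := P.hge (r - 1) hi
    have hb := P.hb
    have hcut := P.cut_lt hi
    have hp := P.hp
    set A := (univ : Finset (Fin n)).filter
      (fun w : Fin n => (w : ℕ) + 1 ≠ n ∧ part r (cut sz) w = r - 1) with hA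
    set w0 : Fin n := ⟨cut sz (r - 1), by omega⟩ with hw0
    have h3 : insert v (A.erase w0) ⊆
        univ.filter (fun w => ¬ (ext n r b (cut sz)).Adj v w) := by
      intro w hw
      rw [Finset.mem_insert] at hw
      simp only [Finset.mem_filter, Finset.mem_univ, true_and]
      rcases hw with rfl | hw
      · exact (ext n r b (cut sz)).loopless.irrefl w
      · rw [Finset.mem_erase, hA, Finset.mem_filter] at hw
        obtain ⟨hw1, _, hw2, hw3⟩ := hw
        rw [ext_adj_last hv hw2]
        rintro (h | h)
        · omega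
        · apply hw1
          apply Fin.ext
          rw [h, hw3]
    have h4 := Finset.card_le_card h3
    rw [Finset.card_insert_of_notMem] at h4
    · have h5 := Finset.pred_card_le_card_erase (s := A) (a := w0)
      unfold nn
      omega
    · rw [Finset.mem_erase, hA, Finset.mem_filter]
      rintro ⟨_, _, h, _⟩
      exact h hv
  · have hi : part r (cut sz) v < r := by have := part_le (r := r) (M := cut sz) v; omega
    have h1 := P.class_card hi
    have h2 := P.hge _ hi
    refine h2.trans ?_
    rw [← h1]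
    apply Finset.card_le_card
    intro w hw
    simp only [Finset.mem_filter, Finset.mem_univ, true_and] at hw ⊢
    rw [ext_adj_of_ne hv hw.1]
    intro h
    exact h hw.2.symm

lemma Par.full_cut (P : Par n r b p sz) {i : ℕ} (hi : i < r) :
    part r (cut sz) (cut sz i) = i ∧ full r b (cut sz) (cut sz i) := by
  have h1 : part r (cut sz) (cut sz i) = i := by
    apply P.part_eq hi le_rfl
    rw [cut_succ]
    have := P.hge i hi
    have := P.hp
    omega
  exact ⟨h1, Or.inr (by rw [h1])⟩

lemma Par.sz_lt (P : Par n r b p sz) {i j : ℕ} (hbi : b ≤ i) (hij : i < j) (hj : j < r) :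
    sz i + 1 ≤ sz j := by
  obtain ⟨d, rfl⟩ : ∃ d, j = i + 1 + d := ⟨j - (i + 1), by omega⟩
  clear hij
  induction d with
  | zero => exact P.hst i hbi (by omega)
  | succ d ih =>
    have h1 := ih (by omega)
    have h2 := P.hst (i + 1 + d) (by omega) (by omega)
    have h3 : sz (i + 1 + (d + 1)) = sz (i + 1 + d + 1) := rfl
    omega

open Classical in
lemma Par.admissible (P : Par n r b p sz) : Admissible n (n - p) r (ext n r b (cut sz)) := by
  have hr := P.hr
  have hn := P.hn
  have hp := P.hp
  have h0 := P.full_cut (i := 0) (by omega)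
  have hc0 : cut sz 0 = 0 := by simp [cut]
  rw [hc0] at h0
  have hcut0 := P.cut_lt (i := 0) (by omega)
  rw [hc0] at hcut0
  refine ⟨?_, ?_, ?_⟩
  · intro v
    have h1 := deg_add_nn (ext n r b (cut sz)) v
    have h2 := P.le_nn v
    omega
  · refine ⟨⟨0, by omega⟩, ?_⟩
    have h1 := deg_add_nn (ext n r b (cut sz)) ⟨0, by omega⟩
    have h2 := P.le_nn ⟨0, by omega⟩
    have h3 := P.nn_le_of_full (v := ⟨0, by omega⟩) (by simp only; omega) h0.2
    simp only [h0.1] at h3
    rw [P.h0] at h3
    omega
  · apply nonMajorizable_of _ r sz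
    · intro i hi
      have hcut := P.cut_lt hi
      have : (Finset.Iic (⟨cut sz i, by omega⟩ : Fin n)) ⊆
          univ.filter (fun v => nn (ext n r b (cut sz)) univ v ≤ sz i) := by
        intro v hv
        rw [Finset.mem_Iic] at hv
        have hv' : (v : ℕ) ≤ cut sz i := hv
        simp only [Finset.mem_filter, Finset.mem_univ, true_and]
        have hvn : (v : ℕ) + 1 ≠ n := by omega
        rcases Nat.lt_or_eq_of_le hv' with h | h
        · have hpi : part r (cut sz) v < i := by
            by_contra hge
            push Not at hge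
            have := cut_mono sz hge
            have := cut_part_le (r := r) (sz := sz) v
            omega
          rcases Nat.lt_or_ge (part r (cut sz) v) b with hb | hb
          · have h1 := P.nn_le_of_full hvn (Or.inl hb)
            rw [P.hlt _ hb] at h1
            exact h1.trans (P.hge i hi)
          · have h1 := P.nn_le hvn
            have h2 := P.sz_lt hb hpi hi
            omega
        · have h1 := P.full_cut hi
          rw [← h] at h1
          have h2 := P.nn_le_of_full hvn h1.2
          rw [h1.1] at h2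
          exact h2
      have h2 := Finset.card_le_card this
      rw [Fin.card_Iic] at h2
      exact h2
    · omega

open Classical in
lemma Par.count (P : Par n r b p sz) : cliqueCount (ext n r b (cut sz)) (r + 1) ≤ p ^ b := by
  have hr := P.hr
  have hn := P.hn
  have hp := P.hp
  have hbr := P.hb
  rw [cliqueCount_eq]
  let F : (Fin b → Fin p) → Finset (Fin n) := fun g =>
    univ.filter (fun w : Fin n => (w : ℕ) + 1 = n ∨
      ((w : ℕ) + 1 ≠ n ∧ b ≤ part r (cut sz) w ∧ (w : ℕ) = cut sz (part r (cut sz) w)) ∨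
      ((w : ℕ) + 1 ≠ n ∧ ∃ i : Fin b, part r (cut sz) w = i ∧ (w : ℕ) = cut sz i + g i))
  have hFc : ∀ g, (F g).card ≤ r + 1 := by
    intro g
    have : (F g).card ≤ (Finset.range (r + 1)).card := by
      apply Finset.card_le_card_of_injOn
        (fun w : Fin n => if (w : ℕ) + 1 = n then r else part r (cut sz) w)
      · intro w _
        simp only [Finset.coe_range, Set.mem_Iio]
        split_ifs
        · omega
        · have := part_le (r := r) (M := cut sz) w
          omega
      · intro w hw w' hw' h
        simp only [F, Finset.coe_filter, Finset.mem_univ, true_and, Set.mem_ofPred_eq] at hw hw'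
        simp only at h
        have a1 := part_le (r := r) (M := cut sz) w
        have a2 := part_le (r := r) (M := cut sz) w'
        split_ifs at h with e1 e2 e2
        · apply Fin.ext; omega
        · omega
        · omega
        · apply Fin.ext
          rcases hw with hw | ⟨_, hw1, hw2⟩ | ⟨_, i, hw1, hw2⟩
          · exact absurd hw e1
          · rcases hw' with hw' | ⟨_, hw1', hw2'⟩ | ⟨_, i', hw1', hw2'⟩
            · exact absurd hw' e2
            · rw [hw2, hw2', h]
            · have := i'.2
              omega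
          · rcases hw' with hw' | ⟨_, hw1', hw2'⟩ | ⟨_, i', hw1', hw2'⟩
            · exact absurd hw' e2
            · have := i.2
              omega
            · have : i = i' := Fin.ext (by omega)
              subst this
              omega
    rwa [Finset.card_range] at this
  have hsub : cl (ext n r b (cut sz)) univ (r + 1) ⊆ (univ : Finset (Fin b → Fin p)).image F := by
    intro K hK
    rw [mem_cl] at hK
    obtain ⟨_, hKc, hKn⟩ := hK
    -- two non-last members of the same part coincide
    have huniq : ∀ w ∈ K, ∀ w' ∈ K, (w : ℕ) + 1 ≠ n → (w' : ℕ) + 1 ≠ n →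
        part r (cut sz) w = part r (cut sz) w' → w = w' := by
      intro w hw w' hw' h1 h2 h3
      by_contra hne
      exact (ext_adj_of_ne h1 h2).1 (hKc hw hw' hne) h3
    -- the last vertex is in K
    have hlast : ∃ L ∈ K, (L : ℕ) + 1 = n := by
      by_contra hcon
      push Not at hcon
      have : K.card ≤ (Finset.range r).card := by
        apply Finset.card_le_card_of_injOn (fun w : Fin n => part r (cut sz) w)
        · intro w _
          have := part_le (r := r) (M := cut sz) w
          simp only [Finset.coe_range, Set.mem_Iio]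
          omega
        · intro w hw w' hw' h
          exact huniq w hw w' hw' (hcon w hw) (hcon w' hw') h
      rw [hKn, Finset.card_range] at this
      omega
    obtain ⟨L, hL, hLn⟩ := hlast
    have hfull : ∀ w ∈ K, (w : ℕ) + 1 ≠ n → full r b (cut sz) w := by
      intro w hw hwn
      have hne : L ≠ w := fun e => hwn (by rw [← e]; exact hLn)
      exact (ext_adj_last hLn hwn).1 (hKc hL hw hne)
    let g : Fin b → Fin p := fun i =>
      if h : ∃ w ∈ K, (w : ℕ) + 1 ≠ n ∧ part r (cut sz) w = i ∧ (w : ℕ) - cut sz i < p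
      then ⟨(h.choose : ℕ) - cut sz i, h.choose_spec.2.2.2⟩ else ⟨0, hp⟩
    have hKF : K ⊆ F g := by
      intro w hw
      simp only [F, Finset.mem_filter, Finset.mem_univ, true_and]
      by_cases hwn : (w : ℕ) + 1 = n
      · exact Or.inl hwn
      · right
        have hf := hfull w hw hwn
        rcases Nat.lt_or_ge (part r (cut sz) w) b with h | h
        · right
          refine ⟨hwn, ⟨part r (cut sz) w, h⟩, rfl, ?_⟩
          have h1 := cut_part_le (r := r) (sz := sz) (w : ℕ)
          have h2 := P.lt_cut (v := (w : ℕ)) (by have := w.2; omega)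
          rw [cut_succ, P.hlt _ h] at h2
          have hex : ∃ w' ∈ K, (w' : ℕ) + 1 ≠ n ∧
              part r (cut sz) w' = (⟨part r (cut sz) w, h⟩ : Fin b) ∧
              (w' : ℕ) - cut sz (⟨part r (cut sz) w, h⟩ : Fin b) < p :=
            ⟨w, hw, hwn, rfl, by simp only; omega⟩
          have h3 : hex.choose = w :=
            huniq _ hex.choose_spec.1 w hw hex.choose_spec.2.1 hwn hex.choose_spec.2.2.1
          have h4 : ((g ⟨part r (cut sz) w, h⟩ : Fin p) : ℕ) =
              (hex.choose : ℕ) - cut sz (part r (cut sz) w) := by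
            simp only [g]
            rw [dif_pos hex]
          rw [h4, h3]
          simp only
          omega
        · left
          refine ⟨hwn, h, ?_⟩
          rcases hf with hf | hf
          · omega
          · exact hf
    have : K = F g := Finset.eq_of_subset_of_card_le hKF (by rw [hKn]; exact hFc g)
    rw [Finset.mem_image]
    exact ⟨g, Finset.mem_univ _, this.symm⟩
  refine (Finset.card_le_card hsub).trans (Finset.card_image_le.trans ?_)
  rw [Finset.card_univ, Fintype.card_fun, Fintype.card_fin, Fintype.card_fin]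

end construction

section final

lemma exists_par {n k r s : ℕ} (hr : 2 ≤ r) (hk : k < n) (hdom : r * (n - k) + 1 ≤ n)
    (hs : s ≤ r - 1) (hst : s * (s + 1) ≤ 2 * (n - 1 - r * (n - k))) :
    ∃ sz : ℕ → ℕ, Par n r (r - 1 - s) (n - k) sz := by
  obtain ⟨b, hb⟩ : ∃ b, r = b + s + 1 := ⟨r - 1 - s, by omega⟩
  have hb' : r - 1 - s = b := by omega
  rw [hb']
  set p := n - k with hp
  obtain ⟨t, ht⟩ : ∃ t, n = 1 + r * p + t := ⟨n - 1 - r * p, by omega⟩
  have ht' : n - 1 - r * p = t := by omega
  rw [ht'] at hst
  let base : ℕ → ℕ := fun i => p + (i - b)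
  have hsum : ∀ j, 2 * ∑ i ∈ range (b + j), base i + j = 2 * ((b + j) * p) + j * j := by
    intro j
    induction j with
    | zero =>
      have : ∑ i ∈ range (b + 0), base i = b * p := by
        rw [add_zero, Finset.sum_congr rfl (fun i hi => show base i = p by
          have := Finset.mem_range.1 hi
          simp only [base]; omega)]
        simp
      rw [this]; simp
    | succ j ih =>
      have e : ∑ i ∈ range (b + (j + 1)), base i = ∑ i ∈ range (b + j), base i + (p + j) := by
        rw [show b + (j + 1) = b + j + 1 by ring, Finset.sum_range_succ]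
        simp [base]
      rw [e]
      nlinarith
  have h1 := hsum s
  have hrp : r * p = (b + s) * p + p := by rw [hb]; ring
  have hsz : ∑ i ∈ range (b + s), base i + p + s + 1 ≤ n := by
    have : 2 * (s * s + s) ≤ 4 * t := by nlinarith
    have h2 : s * s + s ≤ 2 * t := by nlinarith
    have : 2 * (∑ i ∈ range (b + s), base i + p + s + 1) ≤ 2 * n := by
      rw [ht, hrp]
      generalize (b + s) * p = X at *
      generalize s * s = Y at *
      omega
    omega
  let sz : ℕ → ℕ := fun i => if i < b + s then base i else n - 1 - ∑ i ∈ range (b + s), base i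
  have hsz1 : ∑ i ∈ range (b + s), sz i = ∑ i ∈ range (b + s), base i := by
    apply Finset.sum_congr rfl
    intro i hi
    simp only [sz]
    rw [if_pos (Finset.mem_range.1 hi)]
  have hsz2 : sz (b + s) = n - 1 - ∑ i ∈ range (b + s), base i := by simp [sz]
  refine ⟨sz, hr, by omega, by omega, ?_, ?_, ?_, ?_, ?_⟩
  · rw [hb, Finset.sum_range_succ, hsz1, hsz2]
    omega
  · simp only [sz, base]
    rw [if_pos (by omega)]
    omega
  · intro i hi
    simp only [sz, base]
    rw [if_pos (by omega)]
    omega
  · intro i hi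
    rcases Nat.lt_or_ge i (b + s) with h | h
    · simp only [sz, base]
      rw [if_pos h]
      omega
    · have : i = b + s := by omega
      rw [this, hsz2]
      omega
  · intro i hi hir
    rcases Nat.lt_or_ge (i + 1) (b + s) with h | h
    · simp only [sz, base]
      rw [if_pos h, if_pos (by omega)]
      omega
    · have h3 : i + 1 = b + s := by omega
      rw [h3, hsz2]
      have h4 : sz i = p + (i - b) := by
        simp only [sz, base]
        rw [if_pos (by omega)]
      rw [h4]
      omega

lemma dom_of_admissible {n k r : ℕ} (hr : 2 ≤ r) {G : SimpleGraph (Fin n)}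
    (h : Admissible n k r G) : k < n ∧ r * (n - k) + 1 ≤ n := by
  classical
  obtain ⟨v, hv⟩ := h.2.1
  have h1 := deg_add_nn G v
  have h2 : 0 < nn G univ v := Finset.card_pos.2 ⟨v, by simp⟩
  obtain ⟨q, hq, hq0⟩ := exists_seq G (by omega) h
  refine ⟨by omega, ?_⟩
  have h3 := hq.hW
  rw [Finset.card_univ, Fintype.card_fin] at h3
  have h4 := (jumps_sum q (r - 1) (fun i hi => hq.hm i (by omega))).2
  have h5 : r - 1 + 1 = r := by omega
  rw [h5, hq0] at h4
  generalize ((range (r - 1)).filter (fun i => q i ≠ q (i + 1))).card *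
      (((range (r - 1)).filter (fun i => q i ≠ q (i + 1))).card + 1) = J at h4
  omega

lemma lower {n k r s : ℕ} (hr : 2 ≤ r)
    (hst2 : s = r - 1 ∨ 2 * (n - 1 - r * (n - k)) < (s + 1) * (s + 2))
    {G : SimpleGraph (Fin n)} (h : Admissible n k r G) :
    (n - k + 1) ^ (r - 1 - s) ≤ (r + 1).factorial * cliqueCount G (r + 1) ∧
    (r - 1 - s ≤ 1 → (n - k) ^ (r - 1 - s) ≤ cliqueCount G (r + 1)) := by
  classical
  obtain ⟨hk, hdom⟩ := dom_of_admissible hr h
  obtain ⟨q, hq, hq0⟩ := exists_seq G (by omega) h
  have h1 := hq.lb (by omega) (t := n - 1 - r * (n - k)) (by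
    rw [Finset.card_univ, Fintype.card_fin, hq0]; omega)
  rw [cliqueCount_eq]
  rw [hq0] at h1
  set t := n - 1 - r * (n - k) with ht
  have hidx : sIdx r t ≤ s := by
    rcases hst2 with h2 | h2
    · rw [h2]; exact Nat.findGreatest_le _
    · by_contra hlt
      push Not at hlt
      have h3 : sIdx r t * (sIdx r t + 1) ≤ 2 * t := by
        have := Nat.findGreatest_spec (P := fun s : ℕ => s * (s + 1) ≤ 2 * t)
          (Nat.zero_le (r - 1)) (by simp)
        exact this
      have h4 : (s + 1) * (s + 2) ≤ sIdx r t * (sIdx r t + 1) :=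
        Nat.mul_le_mul (by omega) (by omega)
      omega
  refine ⟨?_, ?_⟩
  · refine le_trans ?_ h1.1
    exact Nat.pow_le_pow_right (by omega) (by omega)
  · intro he
    rcases Nat.eq_zero_or_pos (r - 1 - s) with h0 | h0
    · rw [h0, pow_zero]
      exact h1.2.2
    · have h2 : r - 1 - s = 1 := by omega
      rw [h2, pow_one]
      exact h1.2.1 (by omega)

/-- **Main result.** -/
theorem result : ∀ n k r : ℕ, 2 ≤ r →
    ((∃ G : SimpleGraph (Fin n), Admissible n k r G) ↔ (k < n ∧ r * (n - k) + 1 ≤ n)) ∧
    (k < n → r * (n - k) + 1 ≤ n → ∀ s : ℕ, s ≤ r - 1 →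
      s * (s + 1) ≤ 2 * (n - 1 - r * (n - k)) →
      (s = r - 1 ∨ 2 * (n - 1 - r * (n - k)) < (s + 1) * (s + 2)) →
      minCliques n k r ≤ (n - k) ^ (r - 1 - s) ∧
      (n - k + 1) ^ (r - 1 - s) ≤ (r + 1).factorial * minCliques n k r ∧
      (r - 1 - s ≤ 1 → minCliques n k r = (n - k) ^ (r - 1 - s))) := by
  intro n k r hr
  have hex : ∀ s : ℕ, k < n → r * (n - k) + 1 ≤ n → s ≤ r - 1 →
      s * (s + 1) ≤ 2 * (n - 1 - r * (n - k)) →
      ∃ G : SimpleGraph (Fin n), Admissible n k r G ∧
        cliqueCount G (r + 1) ≤ (n - k) ^ (r - 1 - s) := by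
    intro s hk hdom hs hst
    obtain ⟨sz, P⟩ := exists_par hr hk hdom hs hst
    refine ⟨_, ?_, P.count⟩
    have h1 := P.admissible
    have h2 : n - (n - k) = k := by omega
    rw [h2] at h1
    exact h1
  refine ⟨⟨?_, ?_⟩, ?_⟩
  · rintro ⟨G, hG⟩
    exact dom_of_admissible hr hG
  · rintro ⟨hk, hdom⟩
    obtain ⟨G, hG, _⟩ := hex 0 hk hdom (by omega) (by simp)
    exact ⟨G, hG⟩
  · intro hk hdom s hs hst hst2
    obtain ⟨G, hG, hGc⟩ := hex s hk hdom hs hst
    have hup0 : minCliques n k r ≤ cliqueCount G (r + 1) := Nat.sInf_le ⟨G, hG, rfl⟩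
    have hup : minCliques n k r ≤ (n - k) ^ (r - 1 - s) := hup0.trans hGc
    have hmem : minCliques n k r ∈
        {N | ∃ G : SimpleGraph (Fin n), Admissible n k r G ∧ cliqueCount G (r + 1) = N} :=
      Nat.sInf_mem ⟨cliqueCount G (r + 1), G, hG, rfl⟩
    obtain ⟨G', hG', hG'c⟩ := hmem
    have h1 := lower hr hst2 hG'
    rw [hG'c] at h1
    exact ⟨hup, h1.1, fun he => le_antisymm hup (h1.2 he)⟩

end final

end Pool.Agent.Results.MP_76b19e_co.ForcedCliques
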